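import Mathlib

/-!
The block inequality: if `W (m+1) (n-1) + W (m-1) (n+1) - 2 W m n = 2 a m a n` then
`N³ (∑_{2N ≤ m ≤ 4N} |a_m|²)² ≤ 2448 ∑_{m,n ∈ [N,5N]} |W m n|²`.
-/

namespace Pool.Agent.K3h40.Steklov

open Finset

/-- `L⁴ ≥ L²` for finite sequences, in algebraic form -/
lemma l4_ge_l2 (B : Finset ℤ) (x : ℤ → ℂ) (S : Finset ℤ) (hS : ∀ m ∈ B, ∀ n ∈ B, m + n ∈ S) :
    (∑ m ∈ B, ‖x m‖ ^ 2) ^ 2 ≤
      ∑ s ∈ S, ‖∑ m ∈ B, ∑ n ∈ B, if m + n = s then x m * x n else 0‖ ^ 2 := by
  classical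
  set T : Finset ℤ := insert 0 ((B ×ˢ B).image fun p => p.1 - p.2) with hT
  have hTm : ∀ m ∈ B, ∀ n ∈ B, m - n ∈ T := by
    intro m hm n hn
    rw [hT]
    refine Finset.mem_insert_of_mem (Finset.mem_image.2 ⟨(m, n), ?_, rfl⟩)
    exact Finset.mk_mem_product hm hn
  -- left identity
  have h1 : ((∑ s ∈ S, ‖∑ m ∈ B, ∑ n ∈ B, if m + n = s then x m * x n else 0‖ ^ 2 : ℝ) : ℂ)
      = ∑ m ∈ B, ∑ n ∈ B, ∑ m' ∈ B, ∑ n' ∈ B,
          if m + n = m' + n' then x m * x n * (star (x m') * star (x n')) else 0 := by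
    push_cast
    have : ∀ s : ℤ, ((‖∑ m ∈ B, ∑ n ∈ B, if m + n = s then x m * x n else 0‖ : ℂ)) ^ 2
        = ∑ m ∈ B, ∑ n ∈ B, ∑ m' ∈ B, ∑ n' ∈ B,
          (if m + n = s then (if m' + n' = s then x m * x n * (star (x m') * star (x n'))
            else 0) else 0) := by
      intro s
      have e : ((‖∑ m ∈ B, ∑ n ∈ B, if m + n = s then x m * x n else 0‖ : ℂ)) ^ 2
          = (∑ m ∈ B, ∑ n ∈ B, if m + n = s then x m * x n else 0) *
            star (∑ m ∈ B, ∑ n ∈ B, if m + n = s then x m * x n else 0) := by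
        rw [Complex.star_def, Complex.mul_conj, Complex.normSq_eq_norm_sq]
        push_cast
        rfl
      rw [e, star_sum, Finset.sum_mul]
      refine Finset.sum_congr rfl fun m _ => ?_
      rw [Finset.sum_mul]
      refine Finset.sum_congr rfl fun n _ => ?_
      rw [Finset.mul_sum]
      refine Finset.sum_congr rfl fun m' _ => ?_
      rw [star_sum, Finset.mul_sum]
      refine Finset.sum_congr rfl fun n' _ => ?_
      by_cases h1 : m + n = s
      · by_cases h2 : m' + n' = s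
        · rw [if_pos h1, if_pos h2, if_pos h1, if_pos h2, star_mul']
        · rw [if_neg h2, if_pos h1, if_pos h1, if_neg h2, star_zero, mul_zero]
      · rw [if_neg h1, if_neg h1, zero_mul]
    simp_rw [this]
    rw [Finset.sum_comm]
    refine Finset.sum_congr rfl fun m hm => ?_
    rw [Finset.sum_comm]
    refine Finset.sum_congr rfl fun n hn => ?_
    rw [Finset.sum_comm]
    refine Finset.sum_congr rfl fun m' hm' => ?_
    rw [Finset.sum_comm]
    refine Finset.sum_congr rfl fun n' hn' => ?_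
    rw [Finset.sum_ite_eq S (m + n) (fun s => if m' + n' = s then
      x m * x n * (star (x m') * star (x n')) else 0), if_pos (hS m hm n hn)]
    by_cases h : m + n = m' + n'
    · rw [if_pos h, if_pos h.symm]
    · rw [if_neg h, if_neg (fun h' => h h'.symm)]
  have h2 : ((∑ t ∈ T, ‖∑ m ∈ B, ∑ m' ∈ B, if m - m' = t then x m * star (x m') else 0‖ ^ 2 : ℝ) : ℂ)
      = ∑ m ∈ B, ∑ m' ∈ B, ∑ n' ∈ B, ∑ n ∈ B,
          if m + n = m' + n' then x m * x n * (star (x m') * star (x n')) else 0 := by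
    push_cast
    have : ∀ t : ℤ, ((‖∑ m ∈ B, ∑ m' ∈ B, if m - m' = t then x m * star (x m') else 0‖ : ℂ)) ^ 2
        = ∑ m ∈ B, ∑ m' ∈ B, ∑ n' ∈ B, ∑ n ∈ B,
          (if m - m' = t then (if n' - n = t then x m * x n * (star (x m') * star (x n'))
            else 0) else 0) := by
      intro s
      have e : ((‖∑ m ∈ B, ∑ m' ∈ B, if m - m' = s then x m * star (x m') else 0‖ : ℂ)) ^ 2
          = (∑ m ∈ B, ∑ m' ∈ B, if m - m' = s then x m * star (x m') else 0) *
            star (∑ m ∈ B, ∑ m' ∈ B, if m - m' = s then x m * star (x m') else 0) := by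
        rw [Complex.star_def, Complex.mul_conj, Complex.normSq_eq_norm_sq]
        push_cast
        rfl
      rw [e, star_sum, Finset.sum_mul]
      refine Finset.sum_congr rfl fun m _ => ?_
      rw [Finset.sum_mul]
      refine Finset.sum_congr rfl fun m' _ => ?_
      rw [Finset.mul_sum]
      refine Finset.sum_congr rfl fun n' _ => ?_
      rw [star_sum, Finset.mul_sum]
      refine Finset.sum_congr rfl fun n _ => ?_
      by_cases h1 : m - m' = s
      · by_cases h2 : n' - n = s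
        · rw [if_pos h1, if_pos h2, if_pos h1, if_pos h2, star_mul', star_star]
          ring
        · rw [if_neg h2, if_pos h1, if_pos h1, if_neg h2, star_zero, mul_zero]
      · rw [if_neg h1, if_neg h1, zero_mul]
    simp_rw [this]
    rw [Finset.sum_comm]
    refine Finset.sum_congr rfl fun m hm => ?_
    rw [Finset.sum_comm]
    refine Finset.sum_congr rfl fun m' hm' => ?_
    rw [Finset.sum_comm]
    refine Finset.sum_congr rfl fun n' hn' => ?_
    rw [Finset.sum_comm]
    refine Finset.sum_congr rfl fun n hn => ?_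
    rw [Finset.sum_ite_eq T (m - m') (fun s => if n' - n = s then
      x m * x n * (star (x m') * star (x n')) else 0), if_pos (hTm m hm m' hm')]
    by_cases h : m + n = m' + n'
    · rw [if_pos h, if_pos (by omega)]
    · rw [if_neg h, if_neg (by omega)]
  have h3 : (∑ m ∈ B, ∑ n ∈ B, ∑ m' ∈ B, ∑ n' ∈ B,
          if m + n = m' + n' then x m * x n * (star (x m') * star (x n')) else 0)
      = ∑ m ∈ B, ∑ m' ∈ B, ∑ n' ∈ B, ∑ n ∈ B,
          if m + n = m' + n' then x m * x n * (star (x m') * star (x n')) else 0 := by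
    refine Finset.sum_congr rfl fun m hm => ?_
    rw [Finset.sum_comm]
    refine Finset.sum_congr rfl fun m' hm' => ?_
    rw [Finset.sum_comm]
  have h4 : (∑ s ∈ S, ‖∑ m ∈ B, ∑ n ∈ B, if m + n = s then x m * x n else 0‖ ^ 2 : ℝ)
      = ∑ t ∈ T, ‖∑ m ∈ B, ∑ m' ∈ B, if m - m' = t then x m * star (x m') else 0‖ ^ 2 := by
    have := h1.trans (h3.trans h2.symm)
    exact_mod_cast this
  rw [h4]
  have h0 : (0 : ℤ) ∈ T := by rw [hT]; exact Finset.mem_insert_self _ _
  refine le_trans (le_of_eq ?_) (Finset.single_le_sum (f := fun t =>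
    ‖∑ m ∈ B, ∑ m' ∈ B, if m - m' = t then x m * star (x m') else 0‖ ^ 2)
    (fun t _ => by positivity) h0)
  have h5 : (∑ m ∈ B, ∑ m' ∈ B, if m - m' = 0 then x m * star (x m') else 0)
      = ((∑ m ∈ B, ‖x m‖ ^ 2 : ℝ) : ℂ) := by
    push_cast
    refine Finset.sum_congr rfl fun m hm => ?_
    have : ∀ m' : ℤ, (if m - m' = 0 then x m * star (x m') else 0)
        = if m = m' then x m * star (x m') else 0 := by
      intro m'
      by_cases h : m = m'
      · rw [if_pos h, if_pos (by omega)]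
      · rw [if_neg h, if_neg (by omega)]
    simp_rw [this]
    rw [Finset.sum_ite_eq, if_pos hm, Complex.star_def, Complex.mul_conj,
      Complex.normSq_eq_norm_sq]
    push_cast
    rfl
  rw [h5, Complex.norm_real, Real.norm_of_nonneg (Finset.sum_nonneg fun _ _ => by positivity)]

/-! ### the bump -/

/-- `p m = max 0 ((m-N)(5N-m))` -/
def bp (N m : ℤ) : ℤ := max 0 ((m - N) * (5 * N - m))

lemma bp_nonneg (N m : ℤ) : 0 ≤ bp N m := le_max_left _ _

lemma bp_le {N : ℤ} (m : ℤ) : bp N m ≤ 4 * N ^ 2 := by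
  unfold bp
  refine max_le (by positivity) ?_
  nlinarith [sq_nonneg (m - 3 * N)]

lemma bp_eq {N m : ℤ} (h1 : N ≤ m) (h2 : m ≤ 5 * N) : bp N m = (m - N) * (5 * N - m) := by
  unfold bp
  exact max_eq_right (mul_nonneg (by linarith) (by linarith))

lemma bp_zero {N m : ℤ} (h : m ≤ N ∨ 5 * N ≤ m) (hN : 1 ≤ N) : bp N m = 0 := by
  unfold bp
  refine max_eq_left ?_
  rcases h with h | h
  · nlinarith
  · nlinarith

lemma bp_diff {N : ℤ} (hN : 1 ≤ N) (m : ℤ) : |bp N (m + 1) - bp N m| ≤ 4 * N := by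
  by_cases h1 : m < N
  · rw [bp_zero (Or.inl (by omega)) hN, bp_zero (Or.inl (by omega)) hN]
    simp; omega
  · by_cases h2 : 5 * N ≤ m
    · rw [bp_zero (Or.inr (by omega)) hN, bp_zero (Or.inr (by omega)) hN]
      simp; omega
    · rw [bp_eq (by omega) (by omega), bp_eq (by omega) (by omega)]
      have : (m + 1 - N) * (5 * N - (m + 1)) - (m - N) * (5 * N - m) = 6 * N - 2 * m - 1 := by ring
      rw [this, abs_le]
      constructor <;> omega

/-- `ψ = p²` -/
def psi (N m : ℤ) : ℤ := bp N m ^ 2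

lemma psi_nonneg (N m : ℤ) : 0 ≤ psi N m := sq_nonneg _

lemma psi_le {N : ℤ} (m : ℤ) : psi N m ≤ 16 * N ^ 4 := by
  have h1 := bp_nonneg N m
  have h2 := bp_le (N := N) m
  unfold psi
  nlinarith

lemma psi_zero {N m : ℤ} (h : m ≤ N ∨ 5 * N ≤ m) (hN : 1 ≤ N) : psi N m = 0 := by
  rw [psi, bp_zero h hN]; norm_num

lemma psi_diff {N : ℤ} (hN : 1 ≤ N) (m : ℤ) : |psi N (m + 1) - psi N m| ≤ 32 * N ^ 3 := by
  have h1 := bp_nonneg N m
  have h2 := bp_le (N := N) m
  have h3 := bp_nonneg N (m + 1)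
  have h4 := bp_le (N := N) (m + 1)
  have h5 := bp_diff hN m
  have : psi N (m + 1) - psi N m = (bp N (m + 1) - bp N m) * (bp N (m + 1) + bp N m) := by
    unfold psi; ring
  rw [this, abs_mul, abs_of_nonneg (a := bp N (m + 1) + bp N m) (by linarith)]
  calc |bp N (m + 1) - bp N m| * (bp N (m + 1) + bp N m) ≤ (4 * N) * (8 * N ^ 2) := by
        apply mul_le_mul h5 (by linarith) (by linarith) (by linarith)
    _ = 32 * N ^ 3 := by ring

lemma psi_diff2 {N : ℤ} (hN : 1 ≤ N) (m : ℤ) :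
    |psi N (m + 1) + psi N (m - 1) - 2 * psi N m| ≤ 48 * N ^ 2 := by
  have h1 := bp_nonneg N m
  have h2 := bp_le (N := N) m
  have h5 := bp_diff hN m
  have h6 := bp_diff hN (m - 1)
  rw [sub_add_cancel] at h6
  have e : psi N (m + 1) + psi N (m - 1) - 2 * psi N m
      = (bp N (m + 1) - bp N m) ^ 2 + (bp N m - bp N (m - 1)) ^ 2
        + 2 * bp N m * (bp N (m + 1) + bp N (m - 1) - 2 * bp N m) := by
    unfold psi; ring
  have h7 : (bp N (m + 1) - bp N m) ^ 2 ≤ 16 * N ^ 2 := by
    rw [← sq_abs]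
    nlinarith [abs_nonneg (bp N (m + 1) - bp N m)]
  have h8 : (bp N m - bp N (m - 1)) ^ 2 ≤ 16 * N ^ 2 := by
    rw [← sq_abs]
    nlinarith [abs_nonneg (bp N m - bp N (m - 1))]
  have h9 : |2 * bp N m * (bp N (m + 1) + bp N (m - 1) - 2 * bp N m)| ≤ 16 * N ^ 2 := by
    by_cases hz : m ≤ N ∨ 5 * N ≤ m
    · rw [bp_zero hz hN]; simp; positivity
    · have hz1 : N < m := by omega
      have hz2 : m < 5 * N := by omega
      have : bp N (m + 1) + bp N (m - 1) - 2 * bp N m = -2 := by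
        rw [bp_eq (by omega) (by omega), bp_eq (by omega) (by omega), bp_eq (by omega) (by omega)]
        ring
      rw [this, abs_mul, abs_of_nonneg (a := 2 * bp N m) (by linarith)]
      norm_num
      linarith
  rw [e]
  have h10 := abs_le.1 h9
  rw [abs_le]
  constructor
  · nlinarith [sq_nonneg (bp N (m + 1) - bp N m), sq_nonneg (bp N m - bp N (m - 1))]
  · linarith

lemma psi_large {N m : ℤ} (hN : 1 ≤ N) (h1 : 2 * N ≤ m) (h2 : m ≤ 4 * N) : 9 * N ^ 4 ≤ psi N m := by
  have h3 : 3 * N ^ 2 ≤ bp N m := by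
    rw [bp_eq (by omega) (by omega)]
    nlinarith
  unfold psi
  nlinarith [sq_nonneg N]

/-- second difference of the product -/
lemma phi_diff2 {N : ℤ} (hN : 1 ≤ N) (s m : ℤ) :
    |psi N (m + 1) * psi N (s - (m + 1)) + psi N (m - 1) * psi N (s - (m - 1))
      - 2 * (psi N m * psi N (s - m))| ≤ 3584 * N ^ 6 := by
  set f := psi N m
  set fp := psi N (m + 1)
  set fm := psi N (m - 1)
  set g := psi N (s - m)
  set gp := psi N (s - (m + 1))
  set gm := psi N (s - (m - 1))
  have e : fp * gp + fm * gm - 2 * (f * g)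
      = (fp + fm - 2 * f) * g + f * (gp + gm - 2 * g) + (fp - f) * (gp - g)
        + (fm - f) * (gm - g) := by ring
  have a1 : |fp + fm - 2 * f| ≤ 48 * N ^ 2 := psi_diff2 hN m
  have a2 : |gp + gm - 2 * g| ≤ 48 * N ^ 2 := by
    have := psi_diff2 hN (s - m)
    have e1 : s - m + 1 = s - (m - 1) := by ring
    have e2 : s - m - 1 = s - (m + 1) := by ring
    rw [e1, e2] at this
    rw [show gp + gm - 2 * g = psi N (s - (m - 1)) + psi N (s - (m + 1)) - 2 * psi N (s - m) by
      simp only [gp, gm, g]; ring]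
    exact this
  have a3 : |fp - f| ≤ 32 * N ^ 3 := psi_diff hN m
  have a4 : |fm - f| ≤ 32 * N ^ 3 := by
    have := psi_diff hN (m - 1)
    rw [sub_add_cancel] at this
    rw [abs_sub_comm]
    exact this
  have a5 : |gp - g| ≤ 32 * N ^ 3 := by
    have := psi_diff hN (s - (m + 1))
    rw [show s - (m + 1) + 1 = s - m by ring] at this
    rw [abs_sub_comm]
    exact this
  have a6 : |gm - g| ≤ 32 * N ^ 3 := by
    have := psi_diff hN (s - m)
    rw [show s - m + 1 = s - (m - 1) by ring] at this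
    exact this
  have b1 : |f| ≤ 16 * N ^ 4 := by rw [abs_of_nonneg (psi_nonneg _ _)]; exact psi_le _
  have b2 : |g| ≤ 16 * N ^ 4 := by rw [abs_of_nonneg (psi_nonneg _ _)]; exact psi_le _
  rw [e]
  have c1 : |(fp + fm - 2 * f) * g| ≤ (48 * N ^ 2) * (16 * N ^ 4) := by
    rw [abs_mul]; exact mul_le_mul a1 b2 (abs_nonneg _) (by positivity)
  have c2 : |f * (gp + gm - 2 * g)| ≤ (16 * N ^ 4) * (48 * N ^ 2) := by
    rw [abs_mul]; exact mul_le_mul b1 a2 (abs_nonneg _) (by positivity)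
  have c3 : |(fp - f) * (gp - g)| ≤ (32 * N ^ 3) * (32 * N ^ 3) := by
    rw [abs_mul]; exact mul_le_mul a3 a5 (abs_nonneg _) (by positivity)
  have c4 : |(fm - f) * (gm - g)| ≤ (32 * N ^ 3) * (32 * N ^ 3) := by
    rw [abs_mul]; exact mul_le_mul a4 a6 (abs_nonneg _) (by positivity)
  calc |(fp + fm - 2 * f) * g + f * (gp + gm - 2 * g) + (fp - f) * (gp - g)
        + (fm - f) * (gm - g)|
      ≤ |(fp + fm - 2 * f) * g| + |f * (gp + gm - 2 * g)| + |(fp - f) * (gp - g)|
        + |(fm - f) * (gm - g)| := by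
        refine (abs_add_le _ _).trans (add_le_add ?_ le_rfl)
        refine (abs_add_le _ _).trans (add_le_add ?_ le_rfl)
        exact abs_add_le _ _
    _ ≤ 3584 * N ^ 6 := by nlinarith

/-- summation by parts on `ℤ` for finitely supported weights -/
lemma sum_by_parts (φ : ℤ → ℂ) (w : ℤ → ℂ) (hφ : (Function.support φ).Finite) :
    ∑' m, φ m * (w (m + 1) + w (m - 1) - 2 * w m)
      = ∑' m, (φ (m + 1) + φ (m - 1) - 2 * φ m) * w m := by
  have s0 : Summable fun m => φ m * w m :=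
    summable_of_finite_support (hφ.subset (Function.support_mul_subset_left _ _))
  have s1 : Summable fun m => φ m * w (m + 1) :=
    summable_of_finite_support (hφ.subset (Function.support_mul_subset_left _ _))
  have s2 : Summable fun m => φ m * w (m - 1) :=
    summable_of_finite_support (hφ.subset (Function.support_mul_subset_left _ _))
  have e1 : ∑' m, φ m * w (m + 1) = ∑' m, φ (m - 1) * w m := by
    rw [← (Equiv.addRight (1 : ℤ)).tsum_eq (fun m => φ (m - 1) * w m)]
    refine tsum_congr fun m => ?_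
    simp
  have e2 : ∑' m, φ m * w (m - 1) = ∑' m, φ (m + 1) * w m := by
    rw [← (Equiv.addRight (-1 : ℤ)).tsum_eq (fun m => φ (m + 1) * w m)]
    refine tsum_congr fun m => ?_
    simp [sub_eq_add_neg]
  have s1' : Summable fun m => φ (m - 1) * w m := by
    rw [← (Equiv.addRight (1 : ℤ)).summable_iff]
    refine s1.congr fun m => ?_
    simp
  have s2' : Summable fun m => φ (m + 1) * w m := by
    rw [← (Equiv.addRight (-1 : ℤ)).summable_iff]
    refine s2.congr fun m => ?_
    simp [sub_eq_add_neg]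
  have l : ∑' m, φ m * (w (m + 1) + w (m - 1) - 2 * w m)
      = (∑' m, φ m * w (m + 1)) + (∑' m, φ m * w (m - 1)) - 2 * ∑' m, φ m * w m := by
    rw [← s1.tsum_add s2, ← tsum_mul_left, ← (s1.add s2).tsum_sub (s0.mul_left 2)]
    refine tsum_congr fun m => ?_
    ring
  have r : ∑' m, (φ (m + 1) + φ (m - 1) - 2 * φ m) * w m
      = (∑' m, φ (m + 1) * w m) + (∑' m, φ (m - 1) * w m) - 2 * ∑' m, φ m * w m := by
    rw [← s2'.tsum_add s1', ← tsum_mul_left, ← (s2'.add s1').tsum_sub (s0.mul_left 2)]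
    refine tsum_congr fun m => ?_
    ring
  rw [l, r, e1, e2]
  ring

/-- the block inequality -/
theorem block (a : ℤ → ℂ) (W : ℤ → ℤ → ℂ)
    (hW : ∀ m n, W (m + 1) (n - 1) + W (m - 1) (n + 1) - 2 * W m n = 2 * (a m * a n))
    {N : ℤ} (hN : 1 ≤ N) :
    (N : ℝ) ^ 3 * (∑ m ∈ Finset.Icc (2 * N) (4 * N), ‖a m‖ ^ 2) ^ 2 ≤
      2448 * ∑ m ∈ Finset.Icc N (5 * N), ∑ n ∈ Finset.Icc N (5 * N), ‖W m n‖ ^ 2 := by
  classical
  have hN0 : (0 : ℝ) < N := by exact_mod_cast (by omega : (0 : ℤ) < N)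
  have hN1 : (1 : ℝ) ≤ N := by exact_mod_cast hN
  set B := Finset.Icc N (5 * N) with hB
  set S : Finset ℤ := Finset.Icc (2 * N) (10 * N) with hS
  have hSB : ∀ m ∈ B, ∀ n ∈ B, m + n ∈ S := by
    intro m hm n hn
    rw [hB, Finset.mem_Icc] at hm hn
    rw [hS, Finset.mem_Icc]
    omega
  set x : ℤ → ℂ := fun m => (psi N m : ℂ) * a m with hx
  have key := l4_ge_l2 B x S hSB
  -- the coefficients
  have hc : ∀ s ∈ S, ‖∑ m ∈ B, ∑ n ∈ B, if m + n = s then x m * x n else 0‖ ^ 2 ≤
      (5 * N * (1792 * (N : ℝ) ^ 6) ^ 2) *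
        ∑ m ∈ B, ∑ n ∈ B, if m + n = s then ‖W m n‖ ^ 2 else 0 := by
    intro s _
    set φ : ℤ → ℂ := fun m => ((psi N m * psi N (s - m) : ℤ) : ℂ) with hφ
    set w : ℤ → ℂ := fun m => W m (s - m) with hw
    have hfin : (Function.support φ).Finite := by
      refine (Finset.finite_toSet B).subset ?_
      intro m hm
      rw [Function.mem_support] at hm
      by_contra hmB
      apply hm
      have : psi N m = 0 := by
        apply psi_zero _ hN
        simp only [hB, Finset.coe_Icc, Set.mem_Icc, not_and_or, not_le] at hmB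
        omega
      simp [hφ, this]
    have e1 : (∑ m ∈ B, ∑ n ∈ B, if m + n = s then x m * x n else 0)
        = ∑' m, φ m * (a m * a (s - m)) := by
      rw [tsum_eq_sum (s := B)]
      · refine Finset.sum_congr rfl fun m hm => ?_
        by_cases hsm : s - m ∈ B
        · rw [Finset.sum_eq_single (s - m)]
          · rw [if_pos (by ring)]
            simp only [hx, hφ]
            push_cast
            ring
          · intro n _ hne
            rw [if_neg (by omega)]
          · intro h; exact absurd hsm h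
        · have h0 : psi N (s - m) = 0 := by
            apply psi_zero _ hN
            rw [hB, Finset.mem_Icc, not_and_or] at hsm
            omega
          rw [Finset.sum_eq_zero]
          · simp [hφ, h0]
          · intro n hn
            rw [if_neg]
            intro h
            apply hsm
            rw [← h]
            simpa using hn
      · intro m hm
        have : psi N m = 0 := by
          apply psi_zero _ hN
          rw [hB, Finset.mem_Icc, not_and_or] at hm
          omega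
        simp [hφ, this]
    have e2 : (∑' m, φ m * (a m * a (s - m)))
        = (1 / 2) * ∑' m, (φ (m + 1) + φ (m - 1) - 2 * φ m) * w m := by
      rw [← sum_by_parts φ w hfin, ← tsum_mul_left]
      refine tsum_congr fun m => ?_
      have := hW m (s - m)
      simp only [hw]
      rw [show s - (m + 1) = s - m - 1 by ring, show s - (m - 1) = s - m + 1 by ring, this]
      ring
    set Bs : Finset ℤ := B.filter (fun m => s - m ∈ B) with hBs
    have e3 : (∑' m, (φ (m + 1) + φ (m - 1) - 2 * φ m) * w m)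
        = ∑ m ∈ Bs, (φ (m + 1) + φ (m - 1) - 2 * φ m) * w m := by
      refine tsum_eq_sum ?_
      intro m hm
      have : φ (m + 1) + φ (m - 1) - 2 * φ m = 0 := by
        have hz : (m < N ∨ 5 * N < m) ∨ (s - m < N ∨ 5 * N < s - m) := by
          rw [hBs, Finset.mem_filter, hB, Finset.mem_Icc, Finset.mem_Icc] at hm
          omega
        have z0 : φ m = 0 := by
          rcases hz with h | h
          · simp [hφ, psi_zero (N := N) (m := m) (by omega) hN]
          · simp [hφ, psi_zero (N := N) (m := s - m) (by omega) hN]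
        have z1 : φ (m + 1) = 0 := by
          rcases hz with h | h
          · simp [hφ, psi_zero (N := N) (m := m + 1) (by omega) hN]
          · simp [hφ, psi_zero (N := N) (m := s - (m + 1)) (by omega) hN]
        have z2 : φ (m - 1) = 0 := by
          rcases hz with h | h
          · simp [hφ, psi_zero (N := N) (m := m - 1) (by omega) hN]
          · simp [hφ, psi_zero (N := N) (m := s - (m - 1)) (by omega) hN]
        rw [z0, z1, z2]; ring
      rw [this, zero_mul]
    have e4 : ∀ m, ‖φ (m + 1) + φ (m - 1) - 2 * φ m‖ ≤ 3584 * (N : ℝ) ^ 6 := by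
      intro m
      have h := phi_diff2 hN s m
      have h' : ‖φ (m + 1) + φ (m - 1) - 2 * φ m‖
          = ((|psi N (m + 1) * psi N (s - (m + 1)) + psi N (m - 1) * psi N (s - (m - 1))
            - 2 * (psi N m * psi N (s - m))| : ℤ) : ℝ) := by
        have hz : φ (m + 1) + φ (m - 1) - 2 * φ m
            = ((psi N (m + 1) * psi N (s - (m + 1)) + psi N (m - 1) * psi N (s - (m - 1))
              - 2 * (psi N m * psi N (s - m)) : ℤ) : ℂ) := by
          simp only [hφ]
          push_cast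
          ring
        rw [hz, Complex.norm_intCast, Int.cast_abs]
      rw [h']
      exact_mod_cast h
    have e5 : ‖∑ m ∈ Bs, (φ (m + 1) + φ (m - 1) - 2 * φ m) * w m‖ ^ 2
        ≤ (5 * N * (3584 * (N : ℝ) ^ 6) ^ 2) * ∑ m ∈ Bs, ‖w m‖ ^ 2 := by
      have c1 : ‖∑ m ∈ Bs, (φ (m + 1) + φ (m - 1) - 2 * φ m) * w m‖
          ≤ ∑ m ∈ Bs, (3584 * (N : ℝ) ^ 6) * ‖w m‖ := by
        refine (norm_sum_le _ _).trans (Finset.sum_le_sum fun m _ => ?_)
        rw [norm_mul]
        exact mul_le_mul_of_nonneg_right (e4 m) (norm_nonneg _)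
      have c2 : (∑ m ∈ Bs, (3584 * (N : ℝ) ^ 6) * ‖w m‖) ^ 2
          ≤ (∑ m ∈ Bs, (3584 * (N : ℝ) ^ 6) ^ 2) * ∑ m ∈ Bs, ‖w m‖ ^ 2 :=
        Finset.sum_mul_sq_le_sq_mul_sq _ _ _
      have c3 : (∑ m ∈ Bs, (3584 * (N : ℝ) ^ 6) ^ 2) ≤ 5 * N * (3584 * (N : ℝ) ^ 6) ^ 2 := by
        rw [Finset.sum_const, nsmul_eq_mul]
        refine mul_le_mul_of_nonneg_right ?_ (by positivity)
        have : Bs.card ≤ B.card := Finset.card_filter_le _ _
        have hcard : B.card = (5 * N + 1 - N).toNat := by rw [hB, Int.card_Icc]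
        have h3 : (B.card : ℤ) = 4 * N + 1 := by rw [hcard, Int.toNat_of_nonneg (by omega)]; ring
        have h4 : (Bs.card : ℤ) ≤ 4 * N + 1 := by rw [← h3]; exact_mod_cast this
        have h5 : (Bs.card : ℝ) ≤ 4 * N + 1 := by exact_mod_cast h4
        linarith
      calc _ ≤ (∑ m ∈ Bs, (3584 * (N : ℝ) ^ 6) * ‖w m‖) ^ 2 :=
            pow_le_pow_left₀ (norm_nonneg _) c1 2
        _ ≤ _ := c2.trans (mul_le_mul_of_nonneg_right c3
            (Finset.sum_nonneg fun _ _ => by positivity))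
    have e6 : ∑ m ∈ Bs, ‖w m‖ ^ 2
        = ∑ m ∈ B, ∑ n ∈ B, if m + n = s then ‖W m n‖ ^ 2 else 0 := by
      rw [hBs, Finset.sum_filter]
      refine Finset.sum_congr rfl fun m hm => ?_
      by_cases hsm : s - m ∈ B
      · rw [if_pos hsm, Finset.sum_eq_single (s - m)]
        · rw [if_pos (by ring)]
        · intro n _ hne
          rw [if_neg (by omega)]
        · intro h; exact absurd hsm h
      · rw [if_neg hsm, Finset.sum_eq_zero]
        intro n hn
        rw [if_neg]
        intro h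
        apply hsm
        rw [← h]
        simpa using hn
    rw [e1, e2, e3, norm_mul, mul_pow, ← e6]
    have : ‖(1 / 2 : ℂ)‖ ^ 2 = 1 / 4 := by norm_num
    rw [this]
    nlinarith [e5]
  have hsum : ∑ s ∈ S, ‖∑ m ∈ B, ∑ n ∈ B, if m + n = s then x m * x n else 0‖ ^ 2 ≤
      (5 * N * (1792 * (N : ℝ) ^ 6) ^ 2) * ∑ m ∈ B, ∑ n ∈ B, ‖W m n‖ ^ 2 := by
    refine (Finset.sum_le_sum hc).trans (le_of_eq ?_)
    rw [← Finset.mul_sum]
    congr 1
    rw [Finset.sum_comm]
    refine Finset.sum_congr rfl fun m hm => ?_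
    rw [Finset.sum_comm]
    refine Finset.sum_congr rfl fun n hn => ?_
    rw [Finset.sum_ite_eq, if_pos (hSB m hm n hn)]
  have hlow : 81 * (N : ℝ) ^ 8 * (∑ m ∈ Finset.Icc (2 * N) (4 * N), ‖a m‖ ^ 2)
      ≤ ∑ m ∈ B, ‖x m‖ ^ 2 := by
    rw [Finset.mul_sum]
    have h1 : ∑ m ∈ Finset.Icc (2 * N) (4 * N), 81 * (N : ℝ) ^ 8 * ‖a m‖ ^ 2
        ≤ ∑ m ∈ Finset.Icc (2 * N) (4 * N), ‖x m‖ ^ 2 := by
      refine Finset.sum_le_sum fun m hm => ?_
      rw [Finset.mem_Icc] at hm
      have h2 := psi_large hN hm.1 hm.2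
      have h3 : (9 : ℝ) * (N : ℝ) ^ 4 ≤ psi N m := by exact_mod_cast h2
      have h4 : ‖x m‖ = (psi N m : ℝ) * ‖a m‖ := by
        simp only [hx]
        rw [norm_mul, Complex.norm_intCast, abs_of_nonneg]
        exact_mod_cast psi_nonneg _ _
      rw [h4, mul_pow]
      refine mul_le_mul_of_nonneg_right ?_ (by positivity)
      have h5 : (0 : ℝ) ≤ 9 * (N : ℝ) ^ 4 := by positivity
      nlinarith
    refine h1.trans (Finset.sum_le_sum_of_subset_of_nonneg ?_ fun _ _ _ => by positivity)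
    intro m hm
    rw [Finset.mem_Icc] at hm
    rw [hB, Finset.mem_Icc]
    omega
  set σ := ∑ m ∈ Finset.Icc (2 * N) (4 * N), ‖a m‖ ^ 2 with hσ
  have hσ0 : 0 ≤ σ := Finset.sum_nonneg fun _ _ => by positivity
  set Q := ∑ m ∈ B, ∑ n ∈ B, ‖W m n‖ ^ 2 with hQ
  have hQ0 : 0 ≤ Q := Finset.sum_nonneg fun _ _ => Finset.sum_nonneg fun _ _ => by positivity
  have h1 : (81 * (N : ℝ) ^ 8 * σ) ^ 2 ≤ (5 * N * (1792 * (N : ℝ) ^ 6) ^ 2) * Q :=
    (pow_le_pow_left₀ (by positivity) hlow 2).trans (key.trans hsum)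
  have h2 : (N : ℝ) ^ 13 * ((N : ℝ) ^ 3 * σ ^ 2) * 6561 ≤ (N : ℝ) ^ 13 * (16056320 * Q) := by
    calc _ = (81 * (N : ℝ) ^ 8 * σ) ^ 2 := by ring
      _ ≤ _ := h1
      _ = _ := by ring
  have h3 : ((N : ℝ) ^ 3 * σ ^ 2) * 6561 ≤ 16056320 * Q := by
    have hp : (0 : ℝ) < (N : ℝ) ^ 13 := by positivity
    nlinarith
  linarith

end Pool.Agent.K3h40.Steklov
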