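import Pool.Agent.K3h40.Steklov.Limit
import Pool.Agent.K3h40.Steklov.Block

/-!
Summation over dyadic blocks.
-/

namespace Pool.Agent.K3h40.Steklov

open Finset Filter Topology

/-- one block -/
lemma block_power {a : ℤ → ℂ} (ha : RD a) (k : ℕ) (hk : 2 ≤ k) {N M : ℤ} (hN : 1 ≤ N)
    (hM : 5 * N ≤ M) :
    (N : ℝ) * ((N : ℝ) ^ 2 * (∑ m ∈ Finset.Icc (2 * N) (4 * N), ‖a m‖ ^ 2) / 56) ^ k ≤
      ∑ m ∈ Finset.Icc N (5 * N), (∑ n ∈ Finset.Icc (1 : ℤ) M,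
        4 * (m : ℝ) * n * ‖WW a n m‖ ^ 2) ^ ((k : ℝ) / 2) := by
  have hN0 : (0 : ℝ) < N := by exact_mod_cast (by omega : (0 : ℤ) < N)
  have hN1 : (1 : ℝ) ≤ N := by exact_mod_cast hN
  have hblock := block a (fun m n => WW a m n) (fun m n => WW_diff2 ha m n) hN
  set σ := ∑ m ∈ Finset.Icc (2 * N) (4 * N), ‖a m‖ ^ 2 with hσ
  have hσ0 : 0 ≤ σ := Finset.sum_nonneg fun _ _ => by positivity
  set B := Finset.Icc N (5 * N) with hB
  have hcardZ : (B.card : ℤ) = 4 * N + 1 := by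
    rw [hB, Int.card_Icc, Int.toNat_of_nonneg (by omega)]; ring
  have hcard : (B.card : ℝ) = 4 * N + 1 := by exact_mod_cast hcardZ
  have hc0 : (0 : ℝ) < B.card := by rw [hcard]; linarith
  have hc5 : (B.card : ℝ) ≤ 5 * N := by rw [hcard]; linarith
  have hcN : (N : ℝ) ≤ B.card := by rw [hcard]; linarith
  set R : ℤ → ℝ := fun m => ∑ n ∈ Finset.Icc (1 : ℤ) M, 4 * (m : ℝ) * n * ‖WW a n m‖ ^ 2 with hR
  have hR0 : ∀ m ∈ B, 0 ≤ R m := by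
    intro m hm
    rw [hB, Finset.mem_Icc] at hm
    refine Finset.sum_nonneg fun n hn => ?_
    rw [Finset.mem_Icc] at hn
    have hm0 : (0 : ℝ) ≤ m := by exact_mod_cast (by omega : (0 : ℤ) ≤ m)
    have hn0 : (0 : ℝ) ≤ n := by exact_mod_cast (by omega : (0 : ℤ) ≤ n)
    positivity
  have hRl : ∀ m ∈ B, 4 * (N : ℝ) ^ 2 * ∑ n ∈ B, ‖WW a n m‖ ^ 2 ≤ R m := by
    intro m hm
    rw [hB, Finset.mem_Icc] at hm
    have hm1 : (N : ℝ) ≤ m := by exact_mod_cast hm.1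
    rw [hR, Finset.mul_sum]
    have h1 : ∑ n ∈ B, 4 * (N : ℝ) ^ 2 * ‖WW a n m‖ ^ 2
        ≤ ∑ n ∈ B, 4 * (m : ℝ) * n * ‖WW a n m‖ ^ 2 := by
      refine Finset.sum_le_sum fun n hn => ?_
      rw [hB, Finset.mem_Icc] at hn
      have hn1 : (N : ℝ) ≤ n := by exact_mod_cast hn.1
      refine mul_le_mul_of_nonneg_right ?_ (by positivity)
      nlinarith
    refine h1.trans (Finset.sum_le_sum_of_subset_of_nonneg ?_ ?_)
    · intro n hn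
      rw [hB, Finset.mem_Icc] at hn
      rw [Finset.mem_Icc]
      omega
    · intro n hn _
      rw [Finset.mem_Icc] at hn
      have hn0 : (0 : ℝ) ≤ n := by exact_mod_cast (by omega : (0 : ℤ) ≤ n)
      have hm0 : (0 : ℝ) ≤ m := by linarith
      positivity
  have hsum : (N : ℝ) ^ 5 * σ ^ 2 / 612 ≤ ∑ m ∈ B, R m := by
    have h1 : 4 * (N : ℝ) ^ 2 * ∑ m ∈ B, ∑ n ∈ B, ‖WW a n m‖ ^ 2 ≤ ∑ m ∈ B, R m := by
      rw [Finset.mul_sum]
      exact Finset.sum_le_sum hRl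
    have h2 : ∑ m ∈ B, ∑ n ∈ B, ‖WW a n m‖ ^ 2 = ∑ m ∈ B, ∑ n ∈ B, ‖WW a m n‖ ^ 2 :=
      Finset.sum_comm
    rw [h2] at h1
    have h3 : (N : ℝ) ^ 2 * ((N : ℝ) ^ 3 * σ ^ 2) ≤ (N : ℝ) ^ 2 *
        (2448 * ∑ m ∈ B, ∑ n ∈ B, ‖WW a m n‖ ^ 2) :=
      mul_le_mul_of_nonneg_left hblock (by positivity)
    have h4 : (N : ℝ) ^ 5 * σ ^ 2 = (N : ℝ) ^ 2 * ((N : ℝ) ^ 3 * σ ^ 2) := by ring
    rw [h4]
    linarith
  -- Jensen
  have hk1 : (1 : ℝ) ≤ (k : ℝ) / 2 := by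
    have : (2 : ℝ) ≤ k := by exact_mod_cast hk
    linarith
  have hJ := Real.rpow_arith_mean_le_arith_mean_rpow B (fun _ => 1 / (B.card : ℝ)) R
    (fun _ _ => by positivity) (by rw [Finset.sum_const, nsmul_eq_mul]; field_simp)
    hR0 hk1
  have hJl : ∑ m ∈ B, 1 / (B.card : ℝ) * R m = (∑ m ∈ B, R m) / B.card := by
    rw [← Finset.mul_sum]; ring
  have hJr : ∑ m ∈ B, 1 / (B.card : ℝ) * R m ^ ((k : ℝ) / 2)
      = (∑ m ∈ B, R m ^ ((k : ℝ) / 2)) / B.card := by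
    rw [← Finset.mul_sum]; ring
  rw [hJl, hJr, le_div_iff₀ hc0] at hJ
  have hmean : ((N : ℝ) ^ 2 * σ / 56) ^ 2 ≤ (∑ m ∈ B, R m) / B.card := by
    rw [le_div_iff₀ hc0]
    have h1 : ((N : ℝ) ^ 2 * σ / 56) ^ 2 * B.card ≤ ((N : ℝ) ^ 2 * σ / 56) ^ 2 * (5 * N) :=
      mul_le_mul_of_nonneg_left hc5 (by positivity)
    have h2 : ((N : ℝ) ^ 2 * σ / 56) ^ 2 * (5 * N) = (N : ℝ) ^ 5 * σ ^ 2 * (5 / 3136) := by ring
    have h3 : 0 ≤ (N : ℝ) ^ 5 * σ ^ 2 := by positivity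
    nlinarith
  have hpow : (((N : ℝ) ^ 2 * σ / 56) ^ 2) ^ ((k : ℝ) / 2) = ((N : ℝ) ^ 2 * σ / 56) ^ k := by
    have h0 : 0 ≤ (N : ℝ) ^ 2 * σ / 56 := by positivity
    rw [← Real.rpow_natCast ((N : ℝ) ^ 2 * σ / 56) 2, ← Real.rpow_mul h0,
      ← Real.rpow_natCast ((N : ℝ) ^ 2 * σ / 56) k]
    congr 1
    push_cast
    ring
  have h5 : ((N : ℝ) ^ 2 * σ / 56) ^ k ≤ ((∑ m ∈ B, R m) / B.card) ^ ((k : ℝ) / 2) := by
    rw [← hpow]
    exact Real.rpow_le_rpow (by positivity) hmean (by linarith)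
  calc (N : ℝ) * ((N : ℝ) ^ 2 * σ / 56) ^ k
      ≤ (B.card : ℝ) * ((∑ m ∈ B, R m) / B.card) ^ ((k : ℝ) / 2) :=
        mul_le_mul hcN h5 (by positivity) (by positivity)
    _ = ((∑ m ∈ B, R m) / B.card) ^ ((k : ℝ) / 2) * B.card := by ring
    _ ≤ _ := hJ

/-- overlap of the dyadic blocks -/
lemma overlap (J : ℕ) (x : ℤ → ℝ) (hx : ∀ m, 1 ≤ m → 0 ≤ x m) :
    ∑ j ∈ Finset.range (J + 1), ∑ m ∈ Finset.Icc ((2 : ℤ) ^ j) (5 * 2 ^ j), x m ≤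
      3 * ∑ m ∈ Finset.Icc (1 : ℤ) (5 * 2 ^ J), x m := by
  classical
  have h1 : ∀ j ∈ Finset.range (J + 1), ∑ m ∈ Finset.Icc ((2 : ℤ) ^ j) (5 * 2 ^ j), x m
      = ∑ m ∈ Finset.Icc (1 : ℤ) (5 * 2 ^ J), if m ∈ Finset.Icc ((2 : ℤ) ^ j) (5 * 2 ^ j) then
        x m else 0 := by
    intro j hj
    rw [Finset.mem_range] at hj
    rw [← Finset.sum_filter]
    refine Finset.sum_congr ?_ fun _ _ => rfl
    ext m
    rw [Finset.mem_filter, Finset.mem_Icc, Finset.mem_Icc]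
    have h2 : (1 : ℤ) ≤ 2 ^ j := one_le_pow₀ (by norm_num)
    have h3 : (2 : ℤ) ^ j ≤ 2 ^ J := pow_le_pow_right₀ (by norm_num) (by omega)
    constructor
    · intro h; exact ⟨⟨by omega, by omega⟩, h⟩
    · intro h; exact h.2
  rw [Finset.sum_congr rfl h1, Finset.sum_comm, Finset.mul_sum]
  refine Finset.sum_le_sum fun m hm => ?_
  rw [Finset.mem_Icc] at hm
  have hxm := hx m hm.1
  rw [← Finset.sum_filter, Finset.sum_const, nsmul_eq_mul]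
  refine mul_le_mul_of_nonneg_right ?_ hxm
  have hsub : (Finset.range (J + 1)).filter (fun j => m ∈ Finset.Icc ((2 : ℤ) ^ j) (5 * 2 ^ j))
      ⊆ Finset.Icc (Nat.log 2 m.toNat - 2) (Nat.log 2 m.toNat) := by
    intro j hj
    rw [Finset.mem_filter, Finset.mem_Icc] at hj
    have hm1 : 1 ≤ m.toNat := by omega
    have h2 : 2 ^ j ≤ m.toNat := by
      have : ((2 ^ j : ℕ) : ℤ) ≤ m := by push_cast; exact hj.2.1
      omega
    have h3 : m.toNat < 2 ^ (j + 3) := by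
      have e : (2 : ℤ) ^ (j + 3) = 8 * 2 ^ j := by ring
      have h4 : (0 : ℤ) < 2 ^ j := by positivity
      have : (m.toNat : ℤ) < ((2 ^ (j + 3) : ℕ) : ℤ) := by
        rw [Int.toNat_of_nonneg (by omega)]
        push_cast
        rw [e]
        have := hj.2.2
        omega
      exact_mod_cast this
    rw [Finset.mem_Icc]
    constructor
    · have := Nat.log_lt_of_lt_pow (by omega) h3
      omega
    · exact Nat.le_log_of_pow_le (by norm_num) h2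
  have hcard := Finset.card_le_card hsub
  rw [Nat.card_Icc] at hcard
  have : ((Finset.range (J + 1)).filter
      (fun j => m ∈ Finset.Icc ((2 : ℤ) ^ j) (5 * 2 ^ j))).card ≤ 3 := by omega
  exact_mod_cast this

lemma sum_pow_le {α : Type*} (s : Finset α) (x : α → ℝ) (hx : ∀ i ∈ s, 0 ≤ x i) {k : ℕ}
    (hk : 1 ≤ k) : ∑ i ∈ s, x i ^ k ≤ (∑ i ∈ s, x i) ^ k := by
  obtain ⟨r, rfl⟩ : ∃ r, k = r + 1 := ⟨k - 1, by omega⟩
  rw [pow_succ', Finset.sum_mul]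
  refine Finset.sum_le_sum fun i hi => ?_
  rw [pow_succ']
  refine mul_le_mul_of_nonneg_left ?_ (hx i hi)
  exact pow_le_pow_left₀ (hx i hi) (Finset.single_le_sum hx hi) r

/-- one block of the right hand side -/
lemma rhs_block (a : ℤ → ℂ) (k : ℕ) (hk : 1 ≤ k) (j : ℕ) :
    ∑ n ∈ Finset.Ico ((2 : ℕ) ^ (j + 1)) (2 ^ (j + 2)), (n : ℝ) ^ (2 * k + 1) * ‖a (n : ℤ)‖ ^ (2 * k) ≤
      (4 ^ (2 * k + 1) * 56 ^ k) * ((((2 : ℤ) ^ j : ℤ) : ℝ) * ((((2 : ℤ) ^ j : ℤ) : ℝ) ^ 2 *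
        (∑ m ∈ Finset.Icc (2 * (2 : ℤ) ^ j) (4 * 2 ^ j), ‖a m‖ ^ 2) / 56) ^ k) := by
  set σ := ∑ m ∈ Finset.Icc (2 * (2 : ℤ) ^ j) (4 * 2 ^ j), ‖a m‖ ^ 2 with hσ
  have hσ0 : 0 ≤ σ := Finset.sum_nonneg fun _ _ => by positivity
  have hN : (((2 : ℤ) ^ j : ℤ) : ℝ) = 2 ^ j := by push_cast; rfl
  rw [hN]
  have h1 : ∑ n ∈ Finset.Ico ((2 : ℕ) ^ (j + 1)) (2 ^ (j + 2)), (n : ℝ) ^ (2 * k + 1) * ‖a (n : ℤ)‖ ^ (2 * k)
      ≤ ∑ n ∈ Finset.Ico ((2 : ℕ) ^ (j + 1)) (2 ^ (j + 2)), (4 * 2 ^ j : ℝ) ^ (2 * k + 1) * (‖a (n : ℤ)‖ ^ 2) ^ k := by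
    refine Finset.sum_le_sum fun n hn => ?_
    rw [Finset.mem_Ico] at hn
    rw [← pow_mul]
    refine mul_le_mul_of_nonneg_right ?_ (by positivity)
    refine pow_le_pow_left₀ (by positivity) ?_ _
    have h2 : (n : ℝ) ≤ ((2 ^ (j + 2) : ℕ) : ℝ) := by exact_mod_cast hn.2.le
    have h3 : ((2 ^ (j + 2) : ℕ) : ℝ) = 4 * 2 ^ j := by push_cast; ring
    linarith
  have h2 : ∑ n ∈ Finset.Ico ((2 : ℕ) ^ (j + 1)) (2 ^ (j + 2)), (‖a (n : ℤ)‖ ^ 2) ^ k ≤ σ ^ k := by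
    refine (sum_pow_le _ _ (fun _ _ => by positivity) hk).trans ?_
    refine pow_le_pow_left₀ (Finset.sum_nonneg fun _ _ => by positivity) ?_ k
    rw [hσ, ← Finset.sum_image (s := Finset.Ico ((2 : ℕ) ^ (j + 1)) (2 ^ (j + 2)))
      (g := fun n : ℕ => (n : ℤ)) (f := fun m : ℤ => ‖a m‖ ^ 2)
      (fun x _ y _ h => Int.ofNat_inj.1 h)]
    refine Finset.sum_le_sum_of_subset_of_nonneg ?_ fun _ _ _ => by positivity
    intro m hm
    rw [Finset.mem_image] at hm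
    obtain ⟨n, hn, rfl⟩ := hm
    rw [Finset.mem_Ico] at hn
    rw [Finset.mem_Icc]
    have e1 : ((2 ^ (j + 1) : ℕ) : ℤ) = 2 * 2 ^ j := by push_cast; ring
    have e2 : ((2 ^ (j + 2) : ℕ) : ℤ) = 4 * 2 ^ j := by push_cast; ring
    have h3 : ((2 ^ (j + 1) : ℕ) : ℤ) ≤ n := by exact_mod_cast hn.1
    have h4 : (n : ℤ) < ((2 ^ (j + 2) : ℕ) : ℤ) := by exact_mod_cast hn.2
    constructor
    · rw [← e1]; exact h3
    · rw [← e2]; exact h4.le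
  refine h1.trans ?_
  rw [← Finset.mul_sum]
  refine (mul_le_mul_of_nonneg_left h2 (by positivity)).trans (le_of_eq ?_)
  rw [div_pow, mul_pow, mul_pow]
  have : (56 : ℝ) ^ k ≠ 0 := by positivity
  field_simp
  ring

/-- dyadic decomposition of the right hand side -/
lemma rhs_le (g : ℕ → ℝ) (hg : ∀ n, 0 ≤ g n) (T : ℕ) :
    ∑ i ∈ Finset.range T, g (i + 2) ≤
      ∑ j ∈ Finset.range (T + 1), ∑ n ∈ Finset.Ico ((2 : ℕ) ^ (j + 1)) (2 ^ (j + 2)), g n := by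
  have h1 : ∀ J : ℕ, ∑ j ∈ Finset.range J, ∑ n ∈ Finset.Ico ((2 : ℕ) ^ (j + 1)) (2 ^ (j + 2)), g n
      = ∑ n ∈ Finset.Ico 2 (2 ^ (J + 1)), g n := by
    intro J
    induction J with
    | zero => simp
    | succ J ih =>
      rw [Finset.sum_range_succ, ih, Finset.sum_Ico_consecutive]
      · calc 2 = 2 ^ 1 := by norm_num
          _ ≤ 2 ^ (J + 1) := Nat.pow_le_pow_right (by norm_num) (by omega)
      · exact Nat.pow_le_pow_right (by norm_num) (by omega)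
  rw [h1]
  have h2 : ∑ i ∈ Finset.range T, g (i + 2) = ∑ n ∈ Finset.Ico 2 (T + 2), g n := by
    rw [Finset.sum_Ico_eq_sum_range]
    refine Finset.sum_congr (by simp) fun i _ => ?_
    rw [add_comm]
  rw [h2]
  refine Finset.sum_le_sum_of_subset_of_nonneg ?_ fun _ _ _ => hg _
  refine Finset.Ico_subset_Ico le_rfl ?_
  have : T + 2 < 2 ^ (T + 2) := Nat.lt_two_pow_self
  exact this.le

/-- the constant -/
noncomputable def cst (k : ℕ) : ℝ := 1 / ((2 * k * 2 ^ (k - 2)) * 3 * (4 ^ (2 * k + 1) * 56 ^ k))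

lemma cst_pos {k : ℕ} (hk : 2 ≤ k) : 0 < cst k := by
  unfold cst
  have : (0 : ℝ) < k := by exact_mod_cast (by omega : 0 < k)
  positivity

/-- the main theorem for sequences -/
theorem main {a : ℤ → ℂ} (ha : RD a) (hr : ∀ n, a (-n) = star (a n)) (k : ℕ) (hk : 2 ≤ k) :
    Summable (fun n : ℕ => ((n + 2 : ℕ) : ℝ) ^ (2 * k + 1) * ‖a ((n + 2 : ℕ) : ℤ)‖ ^ (2 * k)) ∧
    cst k * ∑' n : ℕ, ((n + 2 : ℕ) : ℝ) ^ (2 * k + 1) * ‖a ((n + 2 : ℕ) : ℤ)‖ ^ (2 * k) ≤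
      (∑' p : JJ (2 * k) × ℤ, tt a p).re := by
  obtain ⟨q, rfl⟩ : ∃ q, k = q + 2 := ⟨k - 2, by omega⟩
  set Z := (∑' p : JJ (2 * (q + 2)) × ℤ, tt a p).re with hZ
  set g : ℕ → ℝ := fun n => (n : ℝ) ^ (2 * (q + 2) + 1) * ‖a (n : ℤ)‖ ^ (2 * (q + 2)) with hg
  have hg0 : ∀ n, 0 ≤ g n := fun n => by positivity
  have hpart : ∀ T : ℕ, ∑ i ∈ Finset.range T, g (i + 2) ≤ Z / cst (q + 2) := by
    intro T
    refine (rhs_le g hg0 T).trans ?_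
    have hM : ((5 * 2 ^ T : ℕ) : ℤ) = 5 * 2 ^ T := by push_cast; rfl
    have hlim := limit_ineq ha hr q (5 * 2 ^ T)
    rw [hM] at hlim
    set x : ℤ → ℝ := fun m => (∑ n ∈ Finset.Icc (1 : ℤ) (5 * 2 ^ T),
        4 * (m : ℝ) * n * ‖WW a n m‖ ^ 2) ^ (((q + 2 : ℕ) : ℝ) / 2) with hx
    have hx0 : ∀ m, 1 ≤ m → 0 ≤ x m := by
      intro m hm
      refine Real.rpow_nonneg (Finset.sum_nonneg fun n hn => ?_) _
      rw [Finset.mem_Icc] at hn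
      have hm0 : (0 : ℝ) ≤ m := by exact_mod_cast (by omega : (0 : ℤ) ≤ m)
      have hn0 : (0 : ℝ) ≤ n := by exact_mod_cast (by omega : (0 : ℤ) ≤ n)
      positivity
    have hov := overlap T x hx0
    have h1 : ∀ j ∈ Finset.range (T + 1), ∑ n ∈ Finset.Ico ((2 : ℕ) ^ (j + 1)) (2 ^ (j + 2)), g n
        ≤ (4 ^ (2 * (q + 2) + 1) * 56 ^ (q + 2)) *
          ∑ m ∈ Finset.Icc ((2 : ℤ) ^ j) (5 * 2 ^ j), x m := by
      intro j hj
      rw [Finset.mem_range] at hj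
      refine (rhs_block a (q + 2) (by omega) j).trans ?_
      refine mul_le_mul_of_nonneg_left ?_ (by positivity)
      have h3 : (2 : ℤ) ^ j ≤ 2 ^ T := pow_le_pow_right₀ (by norm_num) (by omega)
      exact block_power ha (q + 2) (by omega) (one_le_pow₀ (by norm_num)) (by omega)
    have h2 := Finset.sum_le_sum h1
    rw [← Finset.mul_sum] at h2
    have h3 : (4 ^ (2 * (q + 2) + 1) * 56 ^ (q + 2)) *
        (∑ j ∈ Finset.range (T + 1), ∑ m ∈ Finset.Icc ((2 : ℤ) ^ j) (5 * 2 ^ j), x m)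
        ≤ (4 ^ (2 * (q + 2) + 1) * 56 ^ (q + 2)) * (3 * (2 * (q + 2) * 2 ^ q * Z)) := by
      refine mul_le_mul_of_nonneg_left (hov.trans ?_) (by positivity)
      exact mul_le_mul_of_nonneg_left hlim (by norm_num)
    refine (h2.trans h3).trans (le_of_eq ?_)
    unfold cst
    rw [show q + 2 - 2 = q by omega]
    push_cast
    field_simp
  have hc := cst_pos (k := q + 2) (by omega)
  have hsum : Summable (fun n : ℕ => g (n + 2)) :=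
    summable_of_sum_range_le (fun n => hg0 _) hpart
  refine ⟨hsum, ?_⟩
  have h := Real.tsum_le_of_sum_range_le (fun n => hg0 (n + 2)) hpart
  have h' : cst (q + 2) * ∑' n : ℕ, g (n + 2) ≤ cst (q + 2) * (Z / cst (q + 2)) :=
    mul_le_mul_of_nonneg_left h hc.le
  rw [mul_div_cancel₀ _ hc.ne'] at h'
  exact h'

end Pool.Agent.K3h40.Steklov
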