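import Pool.Agent.K3h40.Steklov.Dyadic

/-!
Rapid decay of the Fourier coefficients of a smooth periodic function.
-/

namespace Pool.Agent.K3h40.Steklov

open Finset Filter Topology MeasureTheory
open scoped ContDiff

/-- Fourier coefficient on `[0, 2π]` -/
noncomputable def fcoef (a : ℝ → ℝ) (n : ℤ) : ℂ :=
  (1 / (2 * (Real.pi : ℂ))) *
    ∫ θ in (0 : ℝ)..(2 * Real.pi), (a θ : ℂ) * Complex.exp (-(n * θ * Complex.I))

lemma norm_exp_aux (n : ℤ) (θ : ℝ) : ‖Complex.exp (-(n * θ * Complex.I))‖ = 1 := by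
  rw [Complex.norm_exp]
  simp

lemma fcoef_bounded {a : ℝ → ℝ} (ha : Continuous a) : ∃ C : ℝ, ∀ n : ℤ, ‖fcoef a n‖ ≤ C := by
  obtain ⟨B, hB⟩ := (isCompact_Icc (a := (0 : ℝ)) (b := 2 * Real.pi)).exists_bound_of_continuousOn
    ha.continuousOn
  refine ⟨‖(1 / (2 * (Real.pi : ℂ)))‖ * (B * |2 * Real.pi - 0|), fun n => ?_⟩
  unfold fcoef
  rw [norm_mul]
  refine mul_le_mul_of_nonneg_left ?_ (norm_nonneg _)
  refine intervalIntegral.norm_integral_le_of_norm_le_const fun θ hθ => ?_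
  rw [Set.uIoc_of_le (by positivity)] at hθ
  rw [norm_mul, norm_exp_aux, mul_one, Complex.norm_real]
  exact hB θ ⟨hθ.1.le, hθ.2⟩

lemma exp_periodic_aux (n : ℤ) : Complex.exp (-(n * ((2 * Real.pi : ℝ) : ℂ) * Complex.I)) = 1 := by
  rw [Complex.exp_neg, inv_eq_one, Complex.exp_eq_one_iff]
  exact ⟨n, by push_cast; ring⟩

lemma fcoef_deriv {a : ℝ → ℝ} (ha : ContDiff ℝ ∞ a) (hp : Function.Periodic a (2 * Real.pi))
    (n : ℤ) : fcoef (deriv a) n = (n * Complex.I) * fcoef a n := by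
  have hd : ∀ θ : ℝ, HasDerivAt (fun θ : ℝ => (a θ : ℂ) * Complex.exp (-(n * θ * Complex.I)))
      (((deriv a θ : ℝ) : ℂ) * Complex.exp (-(n * θ * Complex.I)) -
        (n * Complex.I) * ((a θ : ℂ) * Complex.exp (-(n * θ * Complex.I)))) θ := by
    intro θ
    have h1 : HasDerivAt (fun θ : ℝ => (a θ : ℂ)) ((deriv a θ : ℝ) : ℂ) θ :=
      ((ha.differentiable (by norm_num)).differentiableAt.hasDerivAt).ofReal_comp
    have h2 : HasDerivAt (fun θ : ℝ => -((n : ℂ) * θ * Complex.I)) (-((n : ℂ) * 1 * Complex.I)) θ :=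
      (((hasDerivAt_id θ).ofReal_comp.const_mul (n : ℂ)).mul_const Complex.I).neg
    have h3 := h1.mul h2.cexp
    refine h3.congr_deriv ?_
    ring
  have hcont : Continuous fun θ : ℝ => ((deriv a θ : ℝ) : ℂ) * Complex.exp (-(n * θ * Complex.I)) := by
    have : Continuous (deriv a) := ha.continuous_deriv (by norm_num)
    fun_prop
  have hcont2 : Continuous fun θ : ℝ => (a θ : ℂ) * Complex.exp (-(n * θ * Complex.I)) := by
    have : Continuous a := ha.continuous
    fun_prop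
  have hcont3 : Continuous fun θ : ℝ =>
      ((n : ℂ) * Complex.I) * ((a θ : ℂ) * Complex.exp (-(n * θ * Complex.I))) :=
    continuous_const.mul hcont2
  have hint := intervalIntegral.integral_eq_sub_of_hasDerivAt
    (a := (0 : ℝ)) (b := 2 * Real.pi) (fun θ _ => hd θ)
    ((hcont.sub hcont3).intervalIntegrable _ _)
  have hper : (a (2 * Real.pi) : ℂ) = a 0 := by
    have := hp 0
    rw [zero_add] at this
    rw [this]
  rw [intervalIntegral.integral_sub (hcont.intervalIntegrable _ _)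
    (hcont3.intervalIntegrable _ _),
    intervalIntegral.integral_const_mul, exp_periodic_aux, hper] at hint
  have h0 : Complex.exp (-((n : ℂ) * ((0 : ℝ) : ℂ) * Complex.I)) = 1 := by simp
  rw [h0, sub_self, sub_eq_zero] at hint
  unfold fcoef
  rw [hint]
  ring

lemma periodic_deriv {a : ℝ → ℝ} {c : ℝ} (hp : Function.Periodic a c) :
    Function.Periodic (deriv a) c := by
  intro x
  have h : a = fun y => a (y + c) := funext fun y => (hp y).symm
  conv_rhs => rw [h]
  rw [deriv_comp_add_const]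

lemma fcoef_decay (p : ℕ) : ∀ {a : ℝ → ℝ}, ContDiff ℝ ∞ a → Function.Periodic a (2 * Real.pi) →
    ∃ C : ℝ, ∀ n : ℤ, |(n : ℝ)| ^ p * ‖fcoef a n‖ ≤ C := by
  induction p with
  | zero =>
    intro a ha _
    obtain ⟨C, hC⟩ := fcoef_bounded ha.continuous
    exact ⟨C, fun n => by simpa using hC n⟩
  | succ p ih =>
    intro a ha hp
    have hd : ContDiff ℝ ∞ (deriv a) := by
      have := (contDiff_infty_iff_deriv.1 ha).2
      exact this
    obtain ⟨C, hC⟩ := ih hd (periodic_deriv hp)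
    refine ⟨C, fun n => ?_⟩
    have h := hC n
    rw [fcoef_deriv ha hp, norm_mul, norm_mul, Complex.norm_I, mul_one, Complex.norm_intCast] at h
    calc |(n : ℝ)| ^ (p + 1) * ‖fcoef a n‖ = |(n : ℝ)| ^ p * (|(n : ℝ)| * ‖fcoef a n‖) := by ring
      _ ≤ C := h

lemma RD_fcoef {a : ℝ → ℝ} (ha : ContDiff ℝ ∞ a) (hp : Function.Periodic a (2 * Real.pi)) :
    RD (fcoef a) := by
  intro p
  obtain ⟨C0, hC0⟩ := fcoef_decay 0 ha hp
  obtain ⟨C, hC⟩ := fcoef_decay p ha hp
  refine ⟨2 ^ p * (C0 + C), fun n => ?_⟩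
  have h0 := hC0 n
  have h1 := hC n
  rw [pow_zero, one_mul] at h0
  have h2 : (1 + |(n : ℝ)|) ^ p ≤ 2 ^ p * (1 + |(n : ℝ)| ^ p) := by
    rcases le_total (|(n : ℝ)|) 1 with h | h
    · calc (1 + |(n : ℝ)|) ^ p ≤ 2 ^ p := pow_le_pow_left₀ (by positivity) (by linarith) p
        _ ≤ _ := le_mul_of_one_le_right (by positivity) (by
            have : 0 ≤ |(n : ℝ)| ^ p := by positivity
            linarith)
    · calc (1 + |(n : ℝ)|) ^ p ≤ (2 * |(n : ℝ)|) ^ p :=
            pow_le_pow_left₀ (by positivity) (by linarith) p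
        _ = 2 ^ p * |(n : ℝ)| ^ p := mul_pow _ _ _
        _ ≤ _ := mul_le_mul_of_nonneg_left (by linarith) (by positivity)
  calc (1 + |(n : ℝ)|) ^ p * ‖fcoef a n‖ ≤ (2 ^ p * (1 + |(n : ℝ)| ^ p)) * ‖fcoef a n‖ :=
        mul_le_mul_of_nonneg_right h2 (norm_nonneg _)
    _ = 2 ^ p * (‖fcoef a n‖ + |(n : ℝ)| ^ p * ‖fcoef a n‖) := by ring
    _ ≤ _ := mul_le_mul_of_nonneg_left (by linarith) (by positivity)

lemma fcoef_neg (a : ℝ → ℝ) (n : ℤ) : fcoef a (-n) = star (fcoef a n) := by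
  unfold fcoef
  rw [Complex.star_def, map_mul]
  congr 1
  · rw [map_div₀, map_mul, Complex.conj_ofReal, map_one, map_ofNat]
  · rw [intervalIntegral.intervalIntegral_eq_integral_uIoc,
      intervalIntegral.intervalIntegral_eq_integral_uIoc]
    rw [Complex.real_smul, Complex.real_smul, map_mul, Complex.conj_ofReal]
    congr 1
    rw [← integral_conj]
    refine integral_congr_ae (Filter.Eventually.of_forall fun θ => ?_)
    simp only [map_mul, Complex.conj_ofReal]
    congr 1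
    rw [← Complex.exp_conj]
    congr 1
    rw [map_neg, map_mul, map_mul, Complex.conj_ofReal, Complex.conj_I, map_intCast]
    push_cast
    ring

end Pool.Agent.K3h40.Steklov
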