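import Pool.Agent.K3h40.Steklov.Recur

/-!
The spectral lower bound:
`k (tr Y^k - tr Y' Y^{k-1}) ≥ ½ ∑_m (∑_n |(Y-Y')_{mn}|²)^{k/2}` for positive semidefinite `Y, Y'`
with `tr Y^k = tr Y'^k`.
-/

namespace Pool.Agent.K3h40.Steklov

open Matrix Finset
open scoped ComplexOrder

variable {ι : Type*} [Fintype ι] [DecidableEq ι]

/-- unitary diagonalisation -/
structure IsDiag (M U : Matrix ι ι ℂ) (d : ι → ℝ) : Prop where
  u1 : U * Uᴴ = 1
  u2 : Uᴴ * U = 1
  eq : M = U * diagonal (fun i => (d i : ℂ)) * Uᴴ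

lemma exists_isDiag {M : Matrix ι ι ℂ} (hM : M.IsHermitian) :
    ∃ U, IsDiag M U hM.eigenvalues := by
  refine ⟨(hM.eigenvectorUnitary : Matrix ι ι ℂ), ?_, ?_, ?_⟩
  · exact Unitary.coe_mul_star_self hM.eigenvectorUnitary
  · exact Unitary.coe_star_mul_self hM.eigenvectorUnitary
  · have h := hM.spectral_theorem
    rw [Unitary.conjStarAlgAut_apply] at h
    exact h

lemma IsDiag.pow {M U : Matrix ι ι ℂ} {d : ι → ℝ} (h : IsDiag M U d) (n : ℕ) :
    IsDiag (M ^ n) U (fun i => d i ^ n) := by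
  refine ⟨h.u1, h.u2, ?_⟩
  induction n with
  | zero => simp [h.u1]
  | succ n ih =>
    rw [pow_succ, ih, h.eq]
    have : U * diagonal (fun i => ((d i ^ n : ℝ) : ℂ)) * Uᴴ * (U * diagonal (fun i => (d i : ℂ)) * Uᴴ)
        = U * (diagonal (fun i => ((d i ^ n : ℝ) : ℂ)) * (Uᴴ * U) * diagonal (fun i => (d i : ℂ)))
          * Uᴴ := by simp only [mul_assoc]
    rw [this, h.u2, mul_one, Matrix.diagonal_mul_diagonal]
    congr 3
    ext i
    push_cast
    ring

/-- overlap matrix -/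
noncomputable def ov (V U : Matrix ι ι ℂ) (i j : ι) : ℝ := ‖(Vᴴ * U) i j‖ ^ 2

lemma ov_nonneg (V U : Matrix ι ι ℂ) (i j : ι) : 0 ≤ ov V U i j := by unfold ov; positivity

lemma IsDiag.trace_mul {P V Q U : Matrix ι ι ℂ} {f g : ι → ℝ} (hP : IsDiag P V f)
    (hQ : IsDiag Q U g) :
    (P * Q).trace = ((∑ i, ∑ j, f i * g j * ov V U i j : ℝ) : ℂ) := by
  have h1 : (P * Q).trace = (diagonal (fun i => (f i : ℂ)) * (Vᴴ * U) *
      diagonal (fun i => (g i : ℂ)) * (Vᴴ * U)ᴴ).trace := by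
    rw [hP.eq, hQ.eq, Matrix.conjTranspose_mul, Matrix.conjTranspose_conjTranspose]
    have : V * diagonal (fun i => (f i : ℂ)) * Vᴴ * (U * diagonal (fun i => (g i : ℂ)) * Uᴴ)
        = V * (diagonal (fun i => (f i : ℂ)) * Vᴴ * (U * diagonal (fun i => (g i : ℂ)) * Uᴴ)) := by
      simp only [mul_assoc]
    rw [this, Matrix.trace_mul_comm]
    simp only [mul_assoc]
  rw [h1]
  simp only [Matrix.trace, Matrix.diag, Matrix.mul_apply (M := _ * _) (N := (Vᴴ * U)ᴴ),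
    Matrix.conjTranspose_apply, Matrix.mul_diagonal, Matrix.diagonal_mul]
  push_cast
  refine Finset.sum_congr rfl fun i _ => Finset.sum_congr rfl fun j _ => ?_
  have : (Vᴴ * U) i j * star ((Vᴴ * U) i j) = ((‖(Vᴴ * U) i j‖ ^ 2 : ℝ) : ℂ) := by
    rw [Complex.star_def, Complex.mul_conj, Complex.normSq_eq_norm_sq]
  rw [ov]
  calc _ = (f i : ℂ) * g j * ((Vᴴ * U) i j * star ((Vᴴ * U) i j)) := by ring
    _ = _ := by rw [this]

lemma ov_row {V U : Matrix ι ι ℂ} (hV : Vᴴ * V = 1) (hU : U * Uᴴ = 1) (i : ι) :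
    ∑ j, ov V U i j = 1 := by
  have h1 : (Vᴴ * U) * (Vᴴ * U)ᴴ = 1 := by
    rw [Matrix.conjTranspose_mul, Matrix.conjTranspose_conjTranspose]
    calc Vᴴ * U * (Uᴴ * V) = Vᴴ * (U * Uᴴ) * V := by simp only [mul_assoc]
      _ = 1 := by rw [hU, mul_one, hV]
  have h2 := congrFun (congrFun h1 i) i
  rw [Matrix.mul_apply, Matrix.one_apply_eq] at h2
  have h3 : ((∑ j, ov V U i j : ℝ) : ℂ) = 1 := by
    rw [← h2]
    push_cast
    refine Finset.sum_congr rfl fun j _ => ?_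
    rw [Matrix.conjTranspose_apply, Complex.star_def, Complex.mul_conj,
      Complex.normSq_eq_norm_sq, ov]
  exact_mod_cast h3

lemma ov_symm (V U : Matrix ι ι ℂ) (i j : ι) : ov V U i j = ov U V j i := by
  unfold ov
  have : (Uᴴ * V) = (Vᴴ * U)ᴴ := by
    rw [Matrix.conjTranspose_mul, Matrix.conjTranspose_conjTranspose]
  rw [this, Matrix.conjTranspose_apply, norm_star]

lemma ov_col {V U : Matrix ι ι ℂ} (hV : V * Vᴴ = 1) (hU : Uᴴ * U = 1) (j : ι) :
    ∑ i, ov V U i j = 1 := by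
  simp_rw [ov_symm V U]
  exact ov_row hU hV j

/-- the scalar inequality -/
lemma scalar_ineq (q : ℕ) {x y : ℝ} (hx : 0 ≤ x) (hy : 0 ≤ y) :
    (x - y) ^ 2 * (x ^ q + y ^ q) / 2 ≤
      x ^ (q + 2) + (q + 1) * y ^ (q + 2) - (q + 2) * (x * y ^ (q + 1)) := by
  induction q with
  | zero => norm_num; nlinarith
  | succ q ih =>
    have e : x ^ (q + 1 + 2) + ((q + 1 : ℕ) + 1 : ℝ) * y ^ (q + 1 + 2)
        - ((q + 1 : ℕ) + 2 : ℝ) * (x * y ^ (q + 1 + 1))
        = x * (x ^ (q + 2) + (q + 1) * y ^ (q + 2) - (q + 2) * (x * y ^ (q + 1)))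
          + (q + 2) * y ^ (q + 1) * (x - y) ^ 2 := by
      push_cast; ring
    rw [e]
    have h1 := mul_le_mul_of_nonneg_left ih hx
    have h2 : 0 ≤ x * y ^ q * (x - y) ^ 2 := by positivity
    have h3 : 0 ≤ y ^ (q + 1) * (x - y) ^ 2 := by positivity
    have h4 : 0 ≤ (q : ℝ) * (y ^ (q + 1) * (x - y) ^ 2) := by positivity
    have e2 : (x - y) ^ 2 * (x ^ (q + 1) + y ^ (q + 1)) / 2
        = x * ((x - y) ^ 2 * (x ^ q + y ^ q) / 2) - x * y ^ q * (x - y) ^ 2 / 2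
          + y ^ (q + 1) * (x - y) ^ 2 / 2 := by ring
    rw [e2]
    nlinarith

lemma IsDiag.apply_diag {P V E : Matrix ι ι ℂ} {f : ι → ℝ} (hP : IsDiag P V f) (p : ι) :
    (Eᴴ * P * E) p p = ((∑ i, f i * ov V E i p : ℝ) : ℂ) := by
  have h1 : Eᴴ * P * E = (Vᴴ * E)ᴴ * diagonal (fun i => (f i : ℂ)) * (Vᴴ * E) := by
    rw [hP.eq, Matrix.conjTranspose_mul, Matrix.conjTranspose_conjTranspose]
    simp only [mul_assoc]
  rw [h1, Matrix.mul_apply]
  push_cast
  refine Finset.sum_congr rfl fun i _ => ?_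
  rw [Matrix.mul_diagonal, Matrix.conjTranspose_apply]
  have : star ((Vᴴ * E) i p) * (Vᴴ * E) i p = ((‖(Vᴴ * E) i p‖ ^ 2 : ℝ) : ℂ) := by
    rw [mul_comm, Complex.star_def, Complex.mul_conj, Complex.normSq_eq_norm_sq]
  rw [ov]
  calc _ = (f i : ℂ) * (star ((Vᴴ * E) i p) * (Vᴴ * E) i p) := by ring
    _ = _ := by rw [this]

theorem spectral_bound {Y Y' : Matrix ι ι ℂ} (hY : Y.PosSemidef) (hY' : Y'.PosSemidef) (q : ℕ)
    (htr : (Y ^ (q + 2)).trace = (Y' ^ (q + 2)).trace) :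
    ∑ m, (∑ n, ‖(Y - Y') m n‖ ^ 2) ^ (((q + 2 : ℕ) : ℝ) / 2) ≤
      2 * (q + 2) * (((Y ^ (q + 2)).trace).re - ((Y' * Y ^ (q + 1)).trace).re) := by
  obtain ⟨U, hU⟩ := exists_isDiag hY.1
  obtain ⟨V, hV⟩ := exists_isDiag hY'.1
  have hD : (Y - Y').IsHermitian := hY.1.sub hY'.1
  obtain ⟨E, hE⟩ := exists_isDiag hD
  set y := hY.1.eigenvalues with hy
  set z := hY'.1.eigenvalues with hz
  set d := hD.eigenvalues with hd
  have hy0 : ∀ i, 0 ≤ y i := hY.eigenvalues_nonneg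
  have hz0 : ∀ i, 0 ≤ z i := hY'.eigenvalues_nonneg
  -- bilinear traces
  have hB : ∀ a b : ℕ, (Y' ^ a * Y ^ b).trace =
      ((∑ i, ∑ j, z i ^ a * y j ^ b * ov V U i j : ℝ) : ℂ) := fun a b =>
    (hV.pow a).trace_mul (hU.pow b)
  -- step 1
  have e0 : (Y ^ (q + 2)).trace = ((∑ i, ∑ j, y j ^ (q + 2) * ov V U i j : ℝ) : ℂ) := by
    have := hB 0 (q + 2)
    simpa using this
  have e1 : (Y ^ (q + 2)).trace = ((∑ i, ∑ j, z i ^ (q + 2) * ov V U i j : ℝ) : ℂ) := by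
    have := hB (q + 2) 0
    rw [htr]
    simpa using this
  have e2 : (Y' * Y ^ (q + 1)).trace = ((∑ i, ∑ j, z i * y j ^ (q + 1) * ov V U i j : ℝ) : ℂ) := by
    have := hB 1 (q + 1)
    simpa using this
  have r0 : ((Y ^ (q + 2)).trace).re = ∑ i, ∑ j, y j ^ (q + 2) * ov V U i j := by
    rw [e0, Complex.ofReal_re]
  have r1 : ((Y ^ (q + 2)).trace).re = ∑ i, ∑ j, z i ^ (q + 2) * ov V U i j := by
    rw [e1, Complex.ofReal_re]
  have r2 : ((Y' * Y ^ (q + 1)).trace).re = ∑ i, ∑ j, z i * y j ^ (q + 1) * ov V U i j := by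
    rw [e2, Complex.ofReal_re]
  have s1 : (q + 2) * (((Y ^ (q + 2)).trace).re - ((Y' * Y ^ (q + 1)).trace).re)
      = ∑ i, ∑ j, ov V U i j * (z i ^ (q + 2) + (q + 1) * y j ^ (q + 2)
          - (q + 2) * (z i * y j ^ (q + 1))) := by
    have : (q + 2 : ℝ) * (((Y ^ (q + 2)).trace).re - ((Y' * Y ^ (q + 1)).trace).re)
        = ((Y ^ (q + 2)).trace).re + (q + 1) * ((Y ^ (q + 2)).trace).re
          - (q + 2) * ((Y' * Y ^ (q + 1)).trace).re := by ring
    rw [this, r2]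
    nth_rewrite 1 [r1]
    rw [r0]
    simp only [Finset.mul_sum, ← Finset.sum_add_distrib, ← Finset.sum_sub_distrib]
    refine Finset.sum_congr rfl fun i _ => Finset.sum_congr rfl fun j _ => ?_
    ring
  have s2 : ∑ i, ∑ j, ov V U i j * ((z i - y j) ^ 2 * (z i ^ q + y j ^ q) / 2)
      ≤ ∑ i, ∑ j, ov V U i j * (z i ^ (q + 2) + (q + 1) * y j ^ (q + 2)
          - (q + 2) * (z i * y j ^ (q + 1))) := by
    refine Finset.sum_le_sum fun i _ => Finset.sum_le_sum fun j _ => ?_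
    exact mul_le_mul_of_nonneg_left (scalar_ineq q (hz0 i) (hy0 j)) (ov_nonneg _ _ _ _)
  -- step 2 : traces of Y^q D² and Y'^q D²
  have t1 : (Y ^ q * (Y - Y') ^ 2).trace
      = ((∑ i, ∑ j, ov V U i j * ((z i - y j) ^ 2 * y j ^ q) : ℝ) : ℂ) := by
    have h1 : (Y ^ q * (Y - Y') ^ 2).trace = (Y' ^ 0 * Y ^ (q + 2)).trace
        - 2 * (Y' ^ 1 * Y ^ (q + 1)).trace + (Y' ^ 2 * Y ^ q).trace := by
      have e : Y ^ q * (Y - Y') ^ 2 = Y ^ (q + 2) - Y ^ (q + 1) * Y' - Y ^ q * Y' * Y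
          + Y ^ q * Y' ^ 2 := by
        rw [pow_succ Y (q + 1), pow_succ Y q, pow_two, pow_two]
        noncomm_ring
      rw [e, Matrix.trace_add, Matrix.trace_sub, Matrix.trace_sub,
        Matrix.trace_mul_comm (Y ^ (q + 1)), Matrix.trace_mul_comm (Y ^ q * Y') Y,
        Matrix.trace_mul_comm (Y ^ q) (Y' ^ 2), ← mul_assoc, ← pow_succ',
        Matrix.trace_mul_comm (Y ^ (q + 1)) Y', pow_one, pow_zero, one_mul]
      ring
    rw [h1, hB, hB, hB]
    push_cast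
    simp only [Finset.mul_sum, ← Finset.sum_add_distrib, ← Finset.sum_sub_distrib]
    refine Finset.sum_congr rfl fun i _ => Finset.sum_congr rfl fun j _ => ?_
    ring
  have t2 : (Y' ^ q * (Y - Y') ^ 2).trace
      = ((∑ i, ∑ j, ov V U i j * ((z i - y j) ^ 2 * z i ^ q) : ℝ) : ℂ) := by
    have h1 : (Y' ^ q * (Y - Y') ^ 2).trace = (Y' ^ (q + 2) * Y ^ 0).trace
        - 2 * (Y' ^ (q + 1) * Y ^ 1).trace + (Y' ^ q * Y ^ 2).trace := by
      have e : Y' ^ q * (Y - Y') ^ 2 = Y' ^ q * Y ^ 2 - Y' ^ q * Y * Y' - Y' ^ (q + 1) * Y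
          + Y' ^ (q + 2) := by
        rw [pow_succ Y' (q + 1), pow_succ Y' q, pow_two, pow_two]
        noncomm_ring
      rw [e, Matrix.trace_add, Matrix.trace_sub, Matrix.trace_sub,
        Matrix.trace_mul_comm (Y' ^ q * Y) Y', ← mul_assoc, ← pow_succ', pow_one, pow_zero, mul_one]
      ring
    rw [h1, hB, hB, hB]
    push_cast
    simp only [Finset.mul_sum, ← Finset.sum_add_distrib, ← Finset.sum_sub_distrib]
    refine Finset.sum_congr rfl fun i _ => Finset.sum_congr rfl fun j _ => ?_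
    ring
  have t1' := (hU.pow q).trace_mul (hE.pow 2)
  have t2' := (hV.pow q).trace_mul (hE.pow 2)
  rw [t1] at t1'
  rw [t2] at t2'
  have u1 : ∑ i, ∑ j, ov V U i j * ((z i - y j) ^ 2 * y j ^ q)
      = ∑ i, ∑ p, y i ^ q * d p ^ 2 * ov U E i p := by exact_mod_cast t1'
  have u2 : ∑ i, ∑ j, ov V U i j * ((z i - y j) ^ 2 * z i ^ q)
      = ∑ i, ∑ p, z i ^ q * d p ^ 2 * ov V E i p := by exact_mod_cast t2'
  -- step 3
  set α : ι → ℝ := fun p => ∑ i, y i * ov U E i p with hα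
  set β : ι → ℝ := fun p => ∑ i, z i * ov V E i p with hβ
  have hdp : ∀ p, d p = α p - β p := by
    intro p
    have h1 : (Eᴴ * (Y - Y') * E) p p = ((α p - β p : ℝ) : ℂ) := by
      have : Eᴴ * (Y - Y') * E = Eᴴ * Y * E - Eᴴ * Y' * E := by noncomm_ring
      rw [this, Matrix.sub_apply, hU.apply_diag, hV.apply_diag, Complex.ofReal_sub]
    have h2 : (Eᴴ * (Y - Y') * E) p p = (d p : ℂ) := by
      have : Eᴴ * (Y - Y') * E = diagonal (fun i => (d i : ℂ)) := by
        calc Eᴴ * (Y - Y') * E = Eᴴ * (E * diagonal (fun i => (d i : ℂ)) * Eᴴ) * E := by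
              rw [← hE.eq]
          _ = (Eᴴ * E) * diagonal (fun i => (d i : ℂ)) * (Eᴴ * E) := by simp only [mul_assoc]
          _ = _ := by rw [hE.u2]; simp
      rw [this, Matrix.diagonal_apply_eq]
    rw [h2] at h1
    exact_mod_cast h1
  have hα0 : ∀ p, 0 ≤ α p := fun p =>
    Finset.sum_nonneg fun i _ => mul_nonneg (hy0 i) (ov_nonneg _ _ _ _)
  have hβ0 : ∀ p, 0 ≤ β p := fun p =>
    Finset.sum_nonneg fun i _ => mul_nonneg (hz0 i) (ov_nonneg _ _ _ _)
  have jα : ∀ p, α p ^ q ≤ ∑ i, y i ^ q * ov U E i p := by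
    intro p
    have := Real.pow_arith_mean_le_arith_mean_pow Finset.univ (fun i => ov U E i p) y
      (fun i _ => ov_nonneg _ _ _ _) (ov_col hU.u1 hE.u2 p) (fun i _ => hy0 i) q
    simpa only [hα, mul_comm] using this
  have jβ : ∀ p, β p ^ q ≤ ∑ i, z i ^ q * ov V E i p := by
    intro p
    have := Real.pow_arith_mean_le_arith_mean_pow Finset.univ (fun i => ov V E i p) z
      (fun i _ => ov_nonneg _ _ _ _) (ov_col hV.u1 hE.u2 p) (fun i _ => hz0 i) q
    simpa only [hβ, mul_comm] using this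
  have v1 : ∑ p, |d p| ^ (q + 2) ≤
      (∑ i, ∑ p, y i ^ q * d p ^ 2 * ov U E i p) + ∑ i, ∑ p, z i ^ q * d p ^ 2 * ov V E i p := by
    rw [Finset.sum_comm, Finset.sum_comm (f := fun i p => z i ^ q * d p ^ 2 * ov V E i p),
      ← Finset.sum_add_distrib]
    refine Finset.sum_le_sum fun p _ => ?_
    have w1 : (∑ i, y i ^ q * d p ^ 2 * ov U E i p) + ∑ i, z i ^ q * d p ^ 2 * ov V E i p
        = d p ^ 2 * ((∑ i, y i ^ q * ov U E i p) + ∑ i, z i ^ q * ov V E i p) := by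
      rw [mul_add, Finset.mul_sum, Finset.mul_sum]
      congr 1 <;> refine Finset.sum_congr rfl fun i _ => by ring
    rw [w1]
    have w2 : |d p| ^ q ≤ (∑ i, y i ^ q * ov U E i p) + ∑ i, z i ^ q * ov V E i p := by
      rcases le_total (β p) (α p) with h | h
      · have : |d p| ^ q ≤ α p ^ q := by
          refine pow_le_pow_left₀ (abs_nonneg _) ?_ q
          rw [hdp p, abs_of_nonneg (by linarith)]
          linarith [hβ0 p]
        have h0 : 0 ≤ ∑ i, z i ^ q * ov V E i p := le_trans (pow_nonneg (hβ0 p) q) (jβ p)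
        linarith [jα p]
      · have : |d p| ^ q ≤ β p ^ q := by
          refine pow_le_pow_left₀ (abs_nonneg _) ?_ q
          rw [hdp p, abs_of_nonpos (by linarith)]
          linarith [hα0 p]
        have h0 : 0 ≤ ∑ i, y i ^ q * ov U E i p := le_trans (pow_nonneg (hα0 p) q) (jα p)
        linarith [jβ p]
    calc |d p| ^ (q + 2) = d p ^ 2 * |d p| ^ q := by rw [pow_add, sq_abs]; ring
      _ ≤ _ := mul_le_mul_of_nonneg_left w2 (sq_nonneg _)
  -- step 4
  have x1 : ∑ m, (∑ n, ‖(Y - Y') m n‖ ^ 2) ^ (((q + 2 : ℕ) : ℝ) / 2) ≤ ∑ p, |d p| ^ (q + 2) := by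
    have y1 : ∀ m, (∑ n, ‖(Y - Y') m n‖ ^ 2) = ∑ p, ‖E m p‖ ^ 2 * d p ^ 2 := by
      intro m
      have z1 : ((Y - Y') * (Y - Y')ᴴ) m m = ((∑ n, ‖(Y - Y') m n‖ ^ 2 : ℝ) : ℂ) := by
        rw [Matrix.mul_apply]
        push_cast
        refine Finset.sum_congr rfl fun n _ => ?_
        rw [Matrix.conjTranspose_apply, Complex.star_def, Complex.mul_conj,
          Complex.normSq_eq_norm_sq]
        push_cast
        rfl
      have z2 : ((Y - Y') * (Y - Y')ᴴ) m m = ((∑ p, ‖E m p‖ ^ 2 * d p ^ 2 : ℝ) : ℂ) := by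
        rw [hD.eq, ← pow_two, (hE.pow 2).eq, Matrix.mul_apply]
        push_cast
        refine Finset.sum_congr rfl fun p _ => ?_
        rw [Matrix.mul_diagonal, Matrix.conjTranspose_apply]
        have : E m p * star (E m p) = ((‖E m p‖ ^ 2 : ℝ) : ℂ) := by
          rw [Complex.star_def, Complex.mul_conj, Complex.normSq_eq_norm_sq]
        calc _ = (E m p * star (E m p)) * ((d p ^ 2 : ℝ) : ℂ) := by push_cast; ring
          _ = _ := by rw [this]; push_cast; ring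
      rw [z1] at z2
      exact_mod_cast z2
    have y2 : ∀ m, ∑ p, ‖E m p‖ ^ 2 = 1 := by
      intro m
      have h2 := congrFun (congrFun hE.u1 m) m
      rw [Matrix.mul_apply, Matrix.one_apply_eq] at h2
      have h3 : ((∑ p, ‖E m p‖ ^ 2 : ℝ) : ℂ) = 1 := by
        rw [← h2]
        push_cast
        refine Finset.sum_congr rfl fun j _ => ?_
        rw [Matrix.conjTranspose_apply, Complex.star_def, Complex.mul_conj,
          Complex.normSq_eq_norm_sq]
        push_cast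
        rfl
      exact_mod_cast h3
    have y3 : ∀ p, ∑ m, ‖E m p‖ ^ 2 = 1 := by
      intro p
      have h2 := congrFun (congrFun hE.u2 p) p
      rw [Matrix.mul_apply, Matrix.one_apply_eq] at h2
      have h3 : ((∑ m, ‖E m p‖ ^ 2 : ℝ) : ℂ) = 1 := by
        rw [← h2]
        push_cast
        refine Finset.sum_congr rfl fun j _ => ?_
        rw [Matrix.conjTranspose_apply, mul_comm, Complex.star_def, Complex.mul_conj,
          Complex.normSq_eq_norm_sq]
        push_cast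
        rfl
      exact_mod_cast h3
    calc ∑ m, (∑ n, ‖(Y - Y') m n‖ ^ 2) ^ (((q + 2 : ℕ) : ℝ) / 2)
        ≤ ∑ m, ∑ p, ‖E m p‖ ^ 2 * |d p| ^ (q + 2) := by
          refine Finset.sum_le_sum fun m _ => ?_
          rw [y1 m]
          have hk : (1 : ℝ) ≤ ((q + 2 : ℕ) : ℝ) / 2 := by push_cast; linarith [(Nat.cast_nonneg q : (0 : ℝ) ≤ q)]
          have := Real.rpow_arith_mean_le_arith_mean_rpow Finset.univ (fun p => ‖E m p‖ ^ 2)
            (fun p => d p ^ 2) (fun i _ => by positivity) (y2 m) (fun i _ => sq_nonneg _) hk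
          refine this.trans (le_of_eq ?_)
          refine Finset.sum_congr rfl fun p _ => ?_
          congr 1
          show (d p ^ 2) ^ (((q + 2 : ℕ) : ℝ) / 2) = |d p| ^ (q + 2)
          rw [← sq_abs, ← Real.rpow_natCast (|d p|) 2, ← Real.rpow_mul (abs_nonneg _)]
          rw [← Real.rpow_natCast (|d p|) (q + 2)]
          congr 1
          push_cast
          ring
      _ = ∑ p, |d p| ^ (q + 2) := by
          rw [Finset.sum_comm]
          refine Finset.sum_congr rfl fun p _ => ?_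
          rw [← Finset.sum_mul, y3 p, one_mul]
  have s3 : ∑ i, ∑ j, ov V U i j * ((z i - y j) ^ 2 * (z i ^ q + y j ^ q) / 2)
      = ((∑ i, ∑ j, ov V U i j * ((z i - y j) ^ 2 * y j ^ q))
        + ∑ i, ∑ j, ov V U i j * ((z i - y j) ^ 2 * z i ^ q)) / 2 := by
    rw [← Finset.sum_add_distrib, Finset.sum_div]
    refine Finset.sum_congr rfl fun i _ => ?_
    rw [← Finset.sum_add_distrib, Finset.sum_div]
    refine Finset.sum_congr rfl fun j _ => ?_
    ring
  rw [u1, u2] at s3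
  linarith

end Pool.Agent.K3h40.Steklov
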