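import Pool.Agent.K3h40.Steklov.Summ
import Pool.Agent.K3h40.Steklov.Spectral

/-!
The inequality for the truncated traces and its limit.
-/

namespace Pool.Agent.K3h40.Steklov

open Finset Matrix Filter Topology
open scoped ComplexOrder

/-- sign with `sg 0 = 1` -/
def sg (u : ℤ) : ℤ := if 0 ≤ u then 1 else -1

lemma sg_mul_self (u : ℤ) : sg u * sg u = 1 := by
  unfold sg; split_ifs <;> norm_num

lemma sg_mul_abs (u : ℤ) : sg u * |u| = u := by
  unfold sg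
  split_ifs with h
  · rw [abs_of_nonneg h]; ring
  · rw [abs_of_neg (by omega)]; ring

/-- Toeplitz part -/
noncomputable def TL (a : ℤ → ℂ) (L : ℕ) : Matrix (IL L) (IL L) ℂ := fun u v => a (v - u)

/-- square root of the weight -/
noncomputable def RL (L : ℕ) : Matrix (IL L) (IL L) ℂ :=
  diagonal fun u => ((Real.sqrt |(u : ℤ)| : ℝ) : ℂ)

/-- the sign matrix -/
noncomputable def SL (L : ℕ) : Matrix (IL L) (IL L) ℂ := diagonal fun u => ((sg u : ℤ) : ℂ)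

/-- the symmetrised matrix -/
noncomputable def AL (a : ℤ → ℂ) (L : ℕ) : Matrix (IL L) (IL L) ℂ := RL L * TL a L * RL L

lemma RL_mul_RL (L : ℕ) : RL L * RL L = diagonal fun u : IL L => ((|(u : ℤ)| : ℤ) : ℂ) := by
  unfold RL
  rw [Matrix.diagonal_mul_diagonal]
  congr 1
  funext u
  rw [← Complex.ofReal_mul, Real.mul_self_sqrt (by positivity), ← Int.cast_abs,
    Complex.ofReal_intCast]

lemma SL_mul_SL (L : ℕ) : SL L * SL L = 1 := by
  unfold SL
  rw [Matrix.diagonal_mul_diagonal, ← Matrix.diagonal_one]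
  congr 1
  funext u
  rw [← Int.cast_mul, sg_mul_self, Int.cast_one]

lemma SL_conj (L : ℕ) : (SL L)ᴴ = SL L := by
  unfold SL
  rw [Matrix.diagonal_conjTranspose]
  congr 1
  funext u
  simp

lemma RL_conj (L : ℕ) : (RL L)ᴴ = RL L := by
  unfold RL
  rw [Matrix.diagonal_conjTranspose]
  congr 1
  funext u
  simp

lemma TL_conj {a : ℤ → ℂ} (hr : ∀ n, a (-n) = star (a n)) (L : ℕ) : (TL a L)ᴴ = TL a L := by
  ext u v
  rw [Matrix.conjTranspose_apply]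
  unfold TL
  rw [← hr]
  congr 1
  ring

lemma AL_conj {a : ℤ → ℂ} (hr : ∀ n, a (-n) = star (a n)) (L : ℕ) : (AL a L)ᴴ = AL a L := by
  unfold AL
  rw [Matrix.conjTranspose_mul, Matrix.conjTranspose_mul, RL_conj, TL_conj hr, mul_assoc]

lemma ML_eq (ω a : ℤ → ℂ) (L : ℕ) : ML ω a L = diagonal (fun u : IL L => ω u) * TL a L := by
  ext u v
  rw [Matrix.diagonal_mul]
  rfl

lemma trace_AL_pow (a : ℤ → ℂ) (L K : ℕ) :
    ((AL a L) ^ K).trace = ((ML (fun v => ((|v| : ℤ) : ℂ)) a L) ^ K).trace := by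
  unfold AL
  rw [trace_pow_comm (RL L * TL a L) (RL L), ← mul_assoc, RL_mul_RL, ML_eq]

lemma trace_ALSL_pow (a : ℤ → ℂ) (L K : ℕ) :
    ((AL a L * SL L) ^ K).trace = ((ML (fun v => (v : ℂ)) a L) ^ K).trace := by
  have h1 : AL a L * SL L = (RL L * TL a L) * (RL L * SL L) := by
    unfold AL; simp only [mul_assoc]
  rw [h1, trace_pow_comm (RL L * TL a L) (RL L * SL L)]
  congr 2
  rw [ML_eq, ← mul_assoc]
  congr 1
  have h2 : RL L * SL L = SL L * RL L := by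
    unfold RL SL
    rw [Matrix.diagonal_mul_diagonal, Matrix.diagonal_mul_diagonal]
    congr 1
    funext u
    ring
  rw [h2, mul_assoc, RL_mul_RL]
  unfold SL
  rw [Matrix.diagonal_mul_diagonal]
  congr 1
  funext u
  rw [← Int.cast_mul, sg_mul_abs]

/-- window version of `W n m = ∑ |l| a(l+m) a(n-l)` -/
noncomputable def WL (a : ℤ → ℂ) (L : ℕ) (n m : ℤ) : ℂ :=
  ∑ l ∈ Finset.Icc (-(L : ℤ)) L, ((|l| : ℤ) : ℂ) * (a (l + m) * a (n - l))

/-- entry of `Y - SYS` as a function of integers -/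
noncomputable def DL (a : ℤ → ℂ) (L : ℕ) (u v : ℤ) : ℂ :=
  (1 - ((sg u : ℤ) : ℂ) * ((sg v : ℤ) : ℂ)) *
    (((Real.sqrt |(u : ℝ)| : ℝ) : ℂ) * ((Real.sqrt |(v : ℝ)| : ℝ) : ℂ) *
      ∑ l ∈ Finset.Icc (-(L : ℤ)) L, ((|l| : ℤ) : ℂ) * (a (l - u) * a (v - l)))

lemma Y_apply (a : ℤ → ℂ) (L : ℕ) (u v : IL L) :
    (AL a L * AL a L) u v = ((Real.sqrt |((u : ℤ) : ℝ)| : ℝ) : ℂ) *
      ((Real.sqrt |((v : ℤ) : ℝ)| : ℝ) : ℂ) *
      ∑ l ∈ Finset.Icc (-(L : ℤ)) L, ((|l| : ℤ) : ℂ) * (a (l - u) * a (v - l)) := by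
  have h1 : AL a L * AL a L = RL L * (TL a L * (RL L * RL L) * TL a L) * RL L := by
    unfold AL; simp only [mul_assoc]
  rw [h1, RL_mul_RL]
  have h2 : (RL L * (TL a L * (diagonal fun u : IL L => ((|(u : ℤ)| : ℤ) : ℂ)) * TL a L) * RL L) u v
      = ((Real.sqrt |((u : ℤ) : ℝ)| : ℝ) : ℂ) *
      ((TL a L * (diagonal fun u : IL L => ((|(u : ℤ)| : ℤ) : ℂ)) * TL a L) u v) *
      ((Real.sqrt |((v : ℤ) : ℝ)| : ℝ) : ℂ) := by
    unfold RL
    rw [Matrix.mul_diagonal, Matrix.diagonal_mul]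
  rw [h2, Matrix.mul_apply]
  have h3 : ∑ l : IL L, (TL a L * diagonal fun u : IL L => ((|(u : ℤ)| : ℤ) : ℂ)) u l * TL a L l v
      = ∑ l ∈ Finset.Icc (-(L : ℤ)) L, ((|l| : ℤ) : ℂ) * (a (l - u) * a (v - l)) := by
    rw [← Finset.sum_coe_sort (Finset.Icc (-(L : ℤ)) L)
      (fun l => ((|l| : ℤ) : ℂ) * (a (l - u) * a (v - l)))]
    refine Finset.sum_congr rfl fun l _ => ?_
    rw [Matrix.mul_diagonal]
    unfold TL
    ring
  rw [h3]
  ring

lemma D_apply (a : ℤ → ℂ) (L : ℕ) (u v : IL L) :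
    (AL a L * AL a L - SL L * (AL a L * AL a L) * SL L) u v = DL a L u v := by
  rw [Matrix.sub_apply]
  have h : (SL L * (AL a L * AL a L) * SL L) u v
      = ((sg u : ℤ) : ℂ) * (AL a L * AL a L) u v * ((sg v : ℤ) : ℂ) := by
    unfold SL
    rw [Matrix.mul_diagonal, Matrix.diagonal_mul]
  rw [h, Y_apply, DL]
  ring

lemma norm_DL_sq (a : ℤ → ℂ) (L : ℕ) {m n : ℤ} (hm : 1 ≤ m) (hn : 1 ≤ n) :
    ‖DL a L (-m) n‖ ^ 2 = 4 * m * n * ‖WL a L n m‖ ^ 2 := by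
  have h1 : sg (-m) = -1 := by unfold sg; rw [if_neg (by omega)]
  have h2 : sg n = 1 := by unfold sg; rw [if_pos (by omega)]
  have hm0 : (0 : ℝ) ≤ m := by exact_mod_cast (by omega : (0 : ℤ) ≤ m)
  have hn0 : (0 : ℝ) ≤ n := by exact_mod_cast (by omega : (0 : ℤ) ≤ n)
  have hW : (∑ l ∈ Finset.Icc (-(L : ℤ)) L, ((|l| : ℤ) : ℂ) * (a (l - -m) * a (n - l)))
      = WL a L n m := by
    unfold WL
    refine Finset.sum_congr rfl fun l _ => ?_
    rw [sub_neg_eq_add]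
  unfold DL
  rw [hW, h1, h2, norm_mul, norm_mul, norm_mul, mul_pow, mul_pow, mul_pow, Complex.norm_real,
    Complex.norm_real, Real.norm_of_nonneg (Real.sqrt_nonneg _),
    Real.norm_of_nonneg (Real.sqrt_nonneg _), Real.sq_sqrt (abs_nonneg _),
    Real.sq_sqrt (abs_nonneg _)]
  push_cast
  rw [abs_neg, abs_of_nonneg hm0, abs_of_nonneg hn0]
  have : ‖(1 - -1 * 1 : ℂ)‖ ^ 2 = 4 := by norm_num
  rw [this]
  ring

/-- the truncated inequality -/
lemma trunc_ineq {a : ℤ → ℂ} (hr : ∀ n, a (-n) = star (a n)) (q : ℕ) {L M : ℕ} (hML : M ≤ L) :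
    ∑ m ∈ Finset.Icc (1 : ℤ) M, (∑ n ∈ Finset.Icc (1 : ℤ) M,
        4 * m * n * ‖WL a L n m‖ ^ 2) ^ (((q + 2 : ℕ) : ℝ) / 2) ≤
      2 * (q + 2) * 2 ^ q * (ZL a (q + 2) L).re := by
  set A := AL a L with hA
  set S := SL L with hS
  have hAc : Aᴴ = A := AL_conj hr L
  have hSc : Sᴴ = S := SL_conj L
  have hSS : S * S = 1 := SL_mul_SL L
  set Y := A * A with hY
  set Y' := S * (A * A) * S with hY'
  have hYpsd : Y.PosSemidef := by
    have := Matrix.posSemidef_conjTranspose_mul_self A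
    rwa [hAc] at this
  have hY'psd : Y'.PosSemidef := by
    have := Matrix.posSemidef_conjTranspose_mul_self (A * S)
    rw [Matrix.conjTranspose_mul, hAc, hSc] at this
    rw [hY']
    simpa only [mul_assoc] using this
  have hpow : ∀ r : ℕ, Y' ^ r = S * Y ^ r * S := by
    intro r
    induction r with
    | zero => simp [hSS]
    | succ r ih =>
      rw [pow_succ, ih, pow_succ]
      calc S * Y ^ r * S * Y' = S * Y ^ r * (S * S) * (A * A) * S := by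
            rw [hY']; simp only [mul_assoc]
        _ = S * (Y ^ r * Y) * S := by rw [hSS, mul_one]; simp only [hY, mul_assoc]
  have htr : (Y ^ (q + 2)).trace = (Y' ^ (q + 2)).trace := by
    rw [hpow, Matrix.trace_mul_comm, ← mul_assoc, hSS, one_mul]
  have h1 := spectral_bound hYpsd hY'psd q htr
  have h2 := reduction hAc hSc hSS q
  have h3 : hs (A ^ (q + 2)) = ((Y ^ (q + 2)).trace).re := by
    rw [← hs_pow_eq_trace hAc, Complex.ofReal_re]
  have h4 : hs (A * S * A ^ (q + 1)) = ((Y' * Y ^ (q + 1)).trace).re := by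
    rw [← hs_ASA hAc hSc, Complex.ofReal_re]
  rw [h3, h4] at h2
  have h5 : ((A ^ (2 * (q + 2))).trace).re - (((A * S) ^ (2 * (q + 2))).trace).re
      = (ZL a (q + 2) L).re := by
    rw [hA, hS, trace_AL_pow, trace_ALSL_pow, ZL, Complex.sub_re]
  rw [h5] at h2
  have hq2 : (0 : ℝ) < 2 ^ q := by positivity
  have h6 : ((Y ^ (q + 2)).trace).re - ((Y' * Y ^ (q + 1)).trace).re
      ≤ 2 ^ q * (ZL a (q + 2) L).re := by
    rw [div_le_iff₀ hq2] at h2
    linarith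
  have h7 : ∑ m ∈ Finset.Icc (1 : ℤ) M, (∑ n ∈ Finset.Icc (1 : ℤ) M,
        4 * m * n * ‖WL a L n m‖ ^ 2) ^ (((q + 2 : ℕ) : ℝ) / 2)
      ≤ ∑ u : IL L, (∑ v : IL L, ‖(Y - Y') u v‖ ^ 2) ^ (((q + 2 : ℕ) : ℝ) / 2) := by
    have e1 : ∀ u v : IL L, (Y - Y') u v = DL a L u v := fun u v => D_apply a L u v
    have e2 : ∀ u : IL L, ∑ v : IL L, ‖(Y - Y') u v‖ ^ 2
        = ∑ v ∈ Finset.Icc (-(L : ℤ)) L, ‖DL a L u v‖ ^ 2 := by
      intro u
      simp_rw [e1]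
      exact Finset.sum_coe_sort (Finset.Icc (-(L : ℤ)) L) (fun v => ‖DL a L u v‖ ^ 2)
    simp_rw [e2]
    rw [Finset.sum_coe_sort (Finset.Icc (-(L : ℤ)) L)
      (fun u => (∑ v ∈ Finset.Icc (-(L : ℤ)) L, ‖DL a L u v‖ ^ 2) ^ (((q + 2 : ℕ) : ℝ) / 2))]
    have hML' : (M : ℤ) ≤ L := by exact_mod_cast hML
    have e3 : ∑ m ∈ Finset.Icc (1 : ℤ) M,
        (∑ v ∈ Finset.Icc (-(L : ℤ)) L, ‖DL a L (-m) v‖ ^ 2) ^ (((q + 2 : ℕ) : ℝ) / 2)
        ≤ ∑ u ∈ Finset.Icc (-(L : ℤ)) L,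
          (∑ v ∈ Finset.Icc (-(L : ℤ)) L, ‖DL a L u v‖ ^ 2) ^ (((q + 2 : ℕ) : ℝ) / 2) := by
      rw [← Finset.sum_image (s := Finset.Icc (1 : ℤ) M) (g := fun m : ℤ => -m)
        (f := fun u => (∑ v ∈ Finset.Icc (-(L : ℤ)) L, ‖DL a L u v‖ ^ 2) ^ (((q + 2 : ℕ) : ℝ) / 2))
        (fun x _ y _ h => by simpa using h)]
      refine Finset.sum_le_sum_of_subset_of_nonneg ?_ fun u _ _ => ?_
      · intro u hu
        rw [Finset.mem_image] at hu
        obtain ⟨m, hm, rfl⟩ := hu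
        rw [Finset.mem_Icc] at hm ⊢
        omega
      · exact Real.rpow_nonneg (Finset.sum_nonneg fun _ _ => by positivity) _
    refine le_trans (Finset.sum_le_sum fun m hm => ?_) e3
    rw [Finset.mem_Icc] at hm
    refine Real.rpow_le_rpow ?_ ?_ (by positivity)
    · refine Finset.sum_nonneg fun n hn => ?_
      rw [Finset.mem_Icc] at hn
      have hm0 : (0 : ℝ) ≤ m := by exact_mod_cast (by omega : (0 : ℤ) ≤ m)
      have hn0 : (0 : ℝ) ≤ n := by exact_mod_cast (by omega : (0 : ℤ) ≤ n)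
      positivity
    · have e4 : ∑ n ∈ Finset.Icc (1 : ℤ) M, 4 * m * n * ‖WL a L n m‖ ^ 2
          = ∑ n ∈ Finset.Icc (1 : ℤ) M, ‖DL a L (-m) n‖ ^ 2 := by
        refine Finset.sum_congr rfl fun n hn => ?_
        rw [Finset.mem_Icc] at hn
        rw [norm_DL_sq a L hm.1 hn.1]
      rw [e4]
      refine Finset.sum_le_sum_of_subset_of_nonneg ?_ fun _ _ _ => by positivity
      intro n hn
      rw [Finset.mem_Icc] at hn ⊢
      omega
  have h8 : 2 * ((q : ℝ) + 2) * (((Y ^ (q + 2)).trace).re - ((Y' * Y ^ (q + 1)).trace).re)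
      ≤ 2 * (q + 2) * (2 ^ q * (ZL a (q + 2) L).re) :=
    mul_le_mul_of_nonneg_left h6 (by positivity)
  linarith

/-- `W n m = ∑ |l| a(l+m) a(n-l)` -/
noncomputable def WW (a : ℤ → ℂ) (n m : ℤ) : ℂ := ∑' l : ℤ, ((|l| : ℤ) : ℂ) * (a (l + m) * a (n - l))

lemma RD.bounded {a : ℤ → ℂ} (ha : RD a) : ∃ C : ℝ, 0 ≤ C ∧ ∀ n, ‖a n‖ ≤ C := by
  obtain ⟨C, hC⟩ := ha 0
  refine ⟨C, ?_, fun n => by simpa using hC n⟩
  exact (norm_nonneg (a 0)).trans (by simpa using hC 0)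

lemma RD.shift {a : ℤ → ℂ} (ha : RD a) (m : ℤ) : RD fun l => a (l + m) := by
  intro p
  obtain ⟨C, hC⟩ := ha p
  refine ⟨(1 + |(m : ℝ)|) ^ p * C, fun n => ?_⟩
  have h1 : (1 + |(n : ℝ)|) ≤ (1 + |((n + m : ℤ) : ℝ)|) * (1 + |(m : ℝ)|) := by
    have h2 : |(n : ℝ)| ≤ |((n + m : ℤ) : ℝ)| + |(m : ℝ)| := by
      have : (n : ℝ) = ((n + m : ℤ) : ℝ) - m := by push_cast; ring
      calc |(n : ℝ)| = |((n + m : ℤ) : ℝ) - m| := by rw [← this]
        _ ≤ _ := abs_sub _ _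
    nlinarith [abs_nonneg (((n + m : ℤ) : ℝ)), abs_nonneg (m : ℝ)]
  have h3 := pow_le_pow_left₀ (by positivity) h1 p
  calc (1 + |(n : ℝ)|) ^ p * ‖a (n + m)‖
      ≤ ((1 + |((n + m : ℤ) : ℝ)|) * (1 + |(m : ℝ)|)) ^ p * ‖a (n + m)‖ :=
        mul_le_mul_of_nonneg_right h3 (norm_nonneg _)
    _ = (1 + |(m : ℝ)|) ^ p * ((1 + |((n + m : ℤ) : ℝ)|) ^ p * ‖a (n + m)‖) := by
        rw [mul_pow]; ring
    _ ≤ _ := mul_le_mul_of_nonneg_left (hC _) (by positivity)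

lemma summable_W {a : ℤ → ℂ} (ha : RD a) (n m : ℤ) :
    Summable fun l : ℤ => ((|l| : ℤ) : ℂ) * (a (l + m) * a (n - l)) := by
  obtain ⟨C, hC0, hC⟩ := ha.bounded
  have h1 := (ha.shift m).summable 1
  refine Summable.of_norm_bounded (h1.mul_right C) fun l => ?_
  rw [norm_mul, norm_mul, Complex.norm_intCast]
  push_cast
  rw [abs_abs, pow_one]
  have h2 := hC (n - l)
  have h3 : |(l : ℝ)| ≤ 1 + |(l : ℝ)| := by linarith
  calc |(l : ℝ)| * (‖a (l + m)‖ * ‖a (n - l)‖) ≤ (1 + |(l : ℝ)|) * (‖a (l + m)‖ * C) := by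
        gcongr
    _ = _ := by ring

lemma summable_W' {a : ℤ → ℂ} (ha : RD a) (n m c : ℤ) :
    Summable fun l : ℤ => ((|l + c| : ℤ) : ℂ) * (a (l + m) * a (n - l)) := by
  have h := summable_W ha (n + c) (m - c)
  rw [← (Equiv.addRight c).summable_iff] at h
  refine h.congr fun l => ?_
  simp only [Function.comp_apply, Equiv.coe_addRight]
  rw [show l + c + (m - c) = l + m by ring, show n + c - (l + c) = n - l by ring]

lemma WW_shift {a : ℤ → ℂ} (n m c : ℤ) :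
    WW a (n + c) (m - c) = ∑' l : ℤ, ((|l + c| : ℤ) : ℂ) * (a (l + m) * a (n - l)) := by
  unfold WW
  rw [← (Equiv.addRight c).tsum_eq]
  refine tsum_congr fun l => ?_
  simp only [Equiv.coe_addRight]
  rw [show l + c + (m - c) = l + m by ring, show n + c - (l + c) = n - l by ring]

/-- the second difference identity -/
lemma WW_diff2 {a : ℤ → ℂ} (ha : RD a) (n m : ℤ) :
    WW a (n + 1) (m - 1) + WW a (n - 1) (m + 1) - 2 * WW a n m = 2 * (a n * a m) := by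
  have e1 := WW_shift (a := a) n m 1
  have e2 : WW a (n - 1) (m + 1) = ∑' l : ℤ, ((|l + -1| : ℤ) : ℂ) * (a (l + m) * a (n - l)) := by
    have := WW_shift (a := a) n m (-1)
    rw [sub_neg_eq_add] at this
    rw [← this, ← sub_eq_add_neg]
  have e3 : WW a n m = ∑' l : ℤ, ((|l| : ℤ) : ℂ) * (a (l + m) * a (n - l)) := rfl
  rw [e1, e2, e3, ← (summable_W' ha n m 1).tsum_add (summable_W' ha n m (-1)), ← tsum_mul_left,
    ← ((summable_W' ha n m 1).add (summable_W' ha n m (-1))).tsum_sub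
      ((summable_W ha n m).mul_left 2)]
  rw [tsum_eq_single (0 : ℤ)]
  · norm_num; ring
  · intro l hl
    have : |l + 1| + |l + -1| - 2 * |l| = 0 := by
      rcases lt_or_gt_of_ne hl with h | h
      · rw [abs_of_nonpos (by omega), abs_of_nonpos (by omega), abs_of_nonpos (by omega)]; ring
      · rw [abs_of_nonneg (by omega), abs_of_nonneg (by omega), abs_of_nonneg (by omega)]; ring
    have h2 : (((|l + 1| : ℤ) : ℂ) + ((|l + -1| : ℤ) : ℂ) - 2 * ((|l| : ℤ) : ℂ)) = 0 := by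
      exact_mod_cast this
    calc _ = (((|l + 1| : ℤ) : ℂ) + ((|l + -1| : ℤ) : ℂ) - 2 * ((|l| : ℤ) : ℂ))
          * (a (l + m) * a (n - l)) := by ring
      _ = 0 := by rw [h2, zero_mul]

lemma tendsto_WL {a : ℤ → ℂ} (ha : RD a) (n m : ℤ) :
    Tendsto (fun L : ℕ => WL a L n m) atTop (𝓝 (WW a n m)) := by
  have h := (summable_W ha n m).hasSum
  have hmono : Tendsto (fun L : ℕ => Finset.Icc (-(L : ℤ)) L) atTop atTop := by
    refine Filter.tendsto_atTop_finset_of_monotone ?_ ?_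
    · intro L L' hLL
      have : (L : ℤ) ≤ L' := by exact_mod_cast hLL
      exact Finset.Icc_subset_Icc (by omega) (by omega)
    · intro x
      refine ⟨x.natAbs, ?_⟩
      rw [Finset.mem_Icc]
      omega
  exact h.comp hmono

/-- the limit inequality -/
theorem limit_ineq {a : ℤ → ℂ} (ha : RD a) (hr : ∀ n, a (-n) = star (a n)) (q M : ℕ) :
    ∑ m ∈ Finset.Icc (1 : ℤ) M, (∑ n ∈ Finset.Icc (1 : ℤ) M,
        4 * m * n * ‖WW a n m‖ ^ 2) ^ (((q + 2 : ℕ) : ℝ) / 2) ≤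
      2 * (q + 2) * 2 ^ q * (∑' p : JJ (2 * (q + 2)) × ℤ, tt a p).re := by
  have h1 : Tendsto (fun L : ℕ => ∑ m ∈ Finset.Icc (1 : ℤ) M, (∑ n ∈ Finset.Icc (1 : ℤ) M,
        4 * (m : ℝ) * n * ‖WL a L n m‖ ^ 2) ^ (((q + 2 : ℕ) : ℝ) / 2)) atTop
      (𝓝 (∑ m ∈ Finset.Icc (1 : ℤ) M, (∑ n ∈ Finset.Icc (1 : ℤ) M,
        4 * (m : ℝ) * n * ‖WW a n m‖ ^ 2) ^ (((q + 2 : ℕ) : ℝ) / 2))) := by
    refine tendsto_finsetSum _ fun m _ => ?_
    have hc : Continuous fun x : ℝ => x ^ (((q + 2 : ℕ) : ℝ) / 2) :=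
      Real.continuous_rpow_const (by positivity)
    refine (hc.tendsto _).comp ?_
    refine tendsto_finsetSum _ fun n _ => ?_
    exact ((tendsto_WL ha n m).norm.pow 2).const_mul _
  have h2 : Tendsto (fun L : ℕ => 2 * ((q : ℝ) + 2) * 2 ^ q * (ZL a (q + 2) L).re) atTop
      (𝓝 (2 * ((q : ℝ) + 2) * 2 ^ q * (∑' p : JJ (2 * (q + 2)) × ℤ, tt a p).re)) := by
    refine Tendsto.const_mul _ ?_
    exact (Complex.continuous_re.tendsto _).comp (tendsto_ZL ha (k := q + 2) (by omega))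
  refine le_of_tendsto_of_tendsto h1 h2 ?_
  filter_upwards [Filter.eventually_ge_atTop M] with L hL
  exact trunc_ineq hr q hL

lemma star_trace_pow {ι : Type*} [Fintype ι] [DecidableEq ι] {A S : Matrix ι ι ℂ} (hA : Aᴴ = A)
    (hS : Sᴴ = S) (K : ℕ) : star ((A * S) ^ K).trace = ((A * S) ^ K).trace := by
  rw [← Matrix.trace_conjTranspose, Matrix.conjTranspose_pow, Matrix.conjTranspose_mul, hA, hS,
    trace_pow_comm]

/-- the zeta invariant is real -/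
theorem im_eq_zero {a : ℤ → ℂ} (ha : RD a) (hr : ∀ n, a (-n) = star (a n)) {k : ℕ} (hk : 0 < k) :
    (∑' p : JJ (2 * k) × ℤ, tt a p).im = 0 := by
  have h2 : Tendsto (fun L : ℕ => (ZL a k L).im) atTop
      (𝓝 ((∑' p : JJ (2 * k) × ℤ, tt a p).im)) :=
    (Complex.continuous_im.tendsto _).comp (tendsto_ZL ha hk)
  have h3 : ∀ L : ℕ, (ZL a k L).im = 0 := by
    intro L
    have hAc := AL_conj hr L
    have hSc := SL_conj L
    have s1 : star (ZL a k L) = ZL a k L := by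
      unfold ZL
      rw [← trace_AL_pow, ← trace_ALSL_pow, star_sub, star_trace_pow hAc hSc]
      congr 1
      have := star_trace_pow (A := AL a L) (S := 1) hAc (by simp) (2 * k)
      simpa using this
    have := congrArg Complex.im s1
    rw [Complex.star_def, Complex.conj_im] at this
    linarith
  simp_rw [h3] at h2
  exact (tendsto_nhds_unique h2 tendsto_const_nhds)

end Pool.Agent.K3h40.Steklov
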