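import Pool.Agent.K3h40.Steklov.Words

/-!
The chain `tr A^{2k} - |tr (AS)^{2k}| ≥ 2^{-(k-2)} (tr Y^k - tr Y' Y^{k-1})`.
-/

namespace Pool.Agent.K3h40.Steklov

open Matrix Finset

variable {ι : Type*} [Fintype ι] [DecidableEq ι]
variable {A S : Matrix ι ι ℂ}

lemma hs_wrd_le (hA : Aᴴ = A) (hS : Sᴴ = S) (hSS : S * S = 1) {k : ℕ}
    (w : List Bool) (hw : w.length = k) : hs (wrd A S w) ≤ hs (A ^ k) := by
  rcases List.eq_nil_or_concat w with h | ⟨u, b, h⟩
  · subst h
    simp at hw
    subst hw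
    simp
  · have hb : w = u ++ [b] := by simpa using h
    have hul : u.length + 1 = k := by rw [hb] at hw; simpa using hw
    have h1 := hs_wrd_snoc (A := A) (S := S) hA hS hSS u b
    have h2 : (u ++ ([false] ++ (u.reverse ++ [false]))).length = 2 * k := by
      simp; omega
    have h3 := norm_trace_wrd_le (A := A) (S := S) hA hS hSS _ h2
    rw [h1, trace_pow_two_mul hA, Complex.norm_real, Complex.norm_real,
      Real.norm_of_nonneg (hs_nonneg _), Real.norm_of_nonneg (hs_nonneg _)] at h3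
    rw [hb]
    exact h3

lemma hs_mul_left (hS : Sᴴ = S) (hSS : S * S = 1) (X : Matrix ι ι ℂ) : hs (S * X) = hs X := by
  have h := trace_mul_conjTranspose (S * X)
  have h' := trace_mul_conjTranspose X
  rw [Matrix.conjTranspose_mul, hS, ← mul_assoc, Matrix.trace_mul_comm, mul_assoc S X,
    ← mul_assoc S S, hSS, one_mul, h'] at h
  exact_mod_cast h.symm

lemma hs_mul_right (hS : Sᴴ = S) (hSS : S * S = 1) (X : Matrix ι ι ℂ) : hs (X * S) = hs X := by
  have h := trace_mul_conjTranspose (X * S)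
  have h' := trace_mul_conjTranspose X
  rw [Matrix.conjTranspose_mul, hS, ← mul_assoc, mul_assoc X, hSS, mul_one, h'] at h
  exact_mod_cast h.symm

lemma conjTranspose_mul_pow (hA : Aᴴ = A) (hS : Sᴴ = S) (m : ℕ) :
    ((A * S) ^ m)ᴴ = (S * A) ^ m := by
  rw [Matrix.conjTranspose_pow, Matrix.conjTranspose_mul, hA, hS]

lemma wrd_replicate_true (m : ℕ) : wrd A S (List.replicate m true) = (A * S) ^ m := by
  induction m with
  | zero => simp
  | succ m ih => rw [List.replicate_succ, wrd_cons, ih, pow_succ']; simp [ltr]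

lemma wrd_replicate_false (m : ℕ) : wrd A S (List.replicate m false) = A ^ m := by
  induction m with
  | zero => simp
  | succ m ih => rw [List.replicate_succ, wrd_cons, ih, pow_succ']; simp [ltr]

/-- the basic step -/
lemma step (hA : Aᴴ = A) (hS : Sᴴ = S) (hSS : S * S = 1) (m r : ℕ) :
    hs ((A * S) ^ (m + 1) * A ^ (r + 1)) ≤
      (hs ((A * S) ^ m * A ^ (r + 2)) + hs (A ^ (m + r + 2))) / 2 := by
  set U : Matrix ι ι ℂ := A ^ r * (S * A) ^ (m + 1) * A with hU
  set V : Matrix ι ι ℂ := S * ((A * S) ^ m * A ^ (r + 2)) with hV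
  have h1 : (U * V).trace = (hs ((A * S) ^ (m + 1) * A ^ (r + 1)) : ℂ) := by
    rw [← trace_mul_conjTranspose, Matrix.conjTranspose_mul, conjTranspose_mul_pow hA hS,
      Matrix.conjTranspose_pow, hA]
    have e1 : U * V = (A ^ r * (S * A) ^ (m + 1)) * ((A * S) ^ (m + 1) * A ^ (r + 2)) := by
      rw [hU, hV, pow_succ' (A * S)]
      simp only [mul_assoc]
    rw [e1, Matrix.trace_mul_comm]
    congr 1
    have e2 : A ^ (r + 2) * A ^ r = A ^ (r + 1) * A ^ (r + 1) := by
      rw [← pow_add, ← pow_add]; congr 1; omega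
    calc (A * S) ^ (m + 1) * A ^ (r + 2) * (A ^ r * (S * A) ^ (m + 1))
        = (A * S) ^ (m + 1) * (A ^ (r + 2) * A ^ r) * (S * A) ^ (m + 1) := by
          simp only [mul_assoc]
      _ = _ := by rw [e2]; simp only [mul_assoc]
  have h2 := norm_trace_mul_le U V
  rw [h1, Complex.norm_real, Real.norm_of_nonneg (hs_nonneg _)] at h2
  have h3 : hs V = hs ((A * S) ^ m * A ^ (r + 2)) := hs_mul_left hS hSS _
  have h4 : hs U ≤ hs (A ^ (m + r + 2)) := by
    rw [← hs_conjTranspose U]
    have e3 : Uᴴ = wrd A S ([false] ++ (List.replicate (m + 1) true ++ List.replicate r false)) := by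
      rw [hU, Matrix.conjTranspose_mul, Matrix.conjTranspose_mul, Matrix.conjTranspose_pow,
        Matrix.conjTranspose_pow, Matrix.conjTranspose_mul, hA, hS, wrd_append, wrd_append,
        wrd_replicate_true, wrd_replicate_false]
      simp [ltr]
    rw [e3]
    refine hs_wrd_le hA hS hSS _ ?_
    simp; omega
  linarith

lemma chain (hA : Aᴴ = A) (hS : Sᴴ = S) (hSS : S * S = 1) (m : ℕ) :
    ∀ r : ℕ, (hs (A ^ (m + r + 2)) - hs ((A * S) ^ 1 * A ^ (m + r + 1))) / 2 ^ m ≤
      hs (A ^ (m + r + 2)) - hs ((A * S) ^ (m + 1) * A ^ (r + 1)) := by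
  induction m with
  | zero =>
    intro r
    simp
  | succ m ih =>
    intro r
    have h1 := step hA hS hSS (m + 1) r
    have h2 := ih (r + 1)
    have e1 : m + (r + 1) + 2 = m + 1 + r + 2 := by omega
    have e2 : m + (r + 1) + 1 = m + 1 + r + 1 := by omega
    have e3 : r + 1 + 1 = r + 2 := by omega
    rw [e1, e2, e3] at h2
    rw [pow_succ (2 : ℝ), ← div_div]
    linarith

/-- the main reduction -/
theorem reduction (hA : Aᴴ = A) (hS : Sᴴ = S) (hSS : S * S = 1) (q : ℕ) :
    (hs (A ^ (q + 2)) - hs (A * S * A ^ (q + 1))) / 2 ^ q ≤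
      ((A ^ (2 * (q + 2))).trace).re - (((A * S) ^ (2 * (q + 2))).trace).re := by
  have h1 := chain hA hS hSS q 0
  simp only [add_zero, pow_one, zero_add] at h1
  have h2 : (((A * S) ^ (2 * (q + 2))).trace).re ≤ hs ((A * S) ^ (q + 1) * A) := by
    refine (Complex.re_le_norm _).trans ?_
    rw [two_mul, pow_add]
    refine (norm_trace_mul_le _ _).trans ?_
    have : hs ((A * S) ^ (q + 2)) = hs ((A * S) ^ (q + 1) * A) := by
      rw [pow_succ, ← mul_assoc, hs_mul_right hS hSS]
    linarith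
  have h3 : ((A ^ (2 * (q + 2))).trace).re = hs (A ^ (q + 2)) := by
    rw [trace_pow_two_mul hA, Complex.ofReal_re]
  linarith

lemma hs_pow_eq_trace (hA : Aᴴ = A) (q : ℕ) :
    (hs (A ^ q) : ℂ) = ((A * A) ^ q).trace := by
  rw [← trace_pow_two_mul hA, pow_mul, pow_two]

lemma hs_ASA (hA : Aᴴ = A) (hS : Sᴴ = S) (q : ℕ) :
    (hs (A * S * A ^ q) : ℂ) = (S * (A * A) * S * (A * A) ^ q).trace := by
  rw [← trace_mul_conjTranspose]
  have e : (A * S * A ^ q)ᴴ = A ^ q * (S * A) := by
    rw [Matrix.conjTranspose_mul, Matrix.conjTranspose_mul, Matrix.conjTranspose_pow, hA, hS]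
  rw [e]
  have e1 : A * S * A ^ q * (A ^ q * (S * A)) = (A * S * (A * A) ^ q * S) * A := by
    have : A ^ q * A ^ q = (A * A) ^ q := by
      rw [← pow_add, ← pow_two, ← pow_mul, two_mul]
    rw [← this]
    simp only [mul_assoc]
  rw [e1, Matrix.trace_mul_comm]
  have e2 : A * (A * S * (A * A) ^ q * S) = (A * A * S * (A * A) ^ q) * S := by
    simp only [mul_assoc]
  rw [e2, Matrix.trace_mul_comm]
  congr 1
  simp only [mul_assoc]

end Pool.Agent.K3h40.Steklov
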