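import Pool.Agent.K3h40.Steklov.Walk

/-!
Summability for rapidly decaying coefficients.
-/

namespace Pool.Agent.K3h40.Steklov

open Finset Matrix Filter Topology

/-- rapid decay -/
def RD (a : ℤ → ℂ) : Prop := ∀ p : ℕ, ∃ C : ℝ, ∀ n : ℤ, (1 + |(n : ℝ)|) ^ p * ‖a n‖ ≤ C

lemma summable_inv_sq : Summable fun n : ℤ => (1 : ℝ) / (1 + |(n : ℝ)|) ^ 2 := by
  have h : Summable fun n : ℤ => (1 : ℝ) / (n : ℝ) ^ 2 := by
    rw [Real.summable_one_div_int_pow]; norm_num
  rw [← summable_norm_iff]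
  refine Summable.of_norm_bounded_eventually (g := fun n : ℤ => (1 : ℝ) / (n : ℝ) ^ 2) h ?_
  have : ∀ᶠ n : ℤ in cofinite, n ≠ 0 := by
    rw [Filter.eventually_cofinite]
    simp
  filter_upwards [this] with n hn
  have hn' : (n : ℝ) ≠ 0 := by exact_mod_cast hn
  rw [norm_norm, Real.norm_of_nonneg (by positivity)]
  have h2 : (0 : ℝ) < (n : ℝ) ^ 2 := by positivity
  refine one_div_le_one_div_of_le h2 ?_
  rw [← sq_abs (n : ℝ)]
  nlinarith [abs_nonneg (n : ℝ)]

lemma RD.summable {a : ℤ → ℂ} (ha : RD a) (p : ℕ) :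
    Summable fun n : ℤ => (1 + |(n : ℝ)|) ^ p * ‖a n‖ := by
  obtain ⟨C, hC⟩ := ha (p + 2)
  refine Summable.of_nonneg_of_le (fun n => by positivity) (fun n => ?_)
    (summable_inv_sq.mul_left C)
  have h1 : (0 : ℝ) < (1 + |(n : ℝ)|) ^ 2 := by positivity
  rw [mul_one_div, le_div_iff₀ h1]
  have := hC n
  calc (1 + |(n : ℝ)|) ^ p * ‖a n‖ * (1 + |(n : ℝ)|) ^ 2
      = (1 + |(n : ℝ)|) ^ (p + 2) * ‖a n‖ := by ring
    _ ≤ C := this

lemma summable_pi {g : ℤ → ℝ} (hg0 : ∀ n, 0 ≤ g n) (hg : Summable g) (K : ℕ) :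
    Summable fun j : Fin K → ℤ => ∏ i, g (j i) := by
  induction K with
  | zero => exact Summable.of_finite
  | succ K ih =>
    rw [← (Fin.consEquiv (fun _ : Fin (K + 1) => ℤ)).summable_iff]
    have h := hg.mul_of_nonneg ih hg0 (fun j => Finset.prod_nonneg fun i _ => hg0 _)
    refine h.congr fun x => ?_
    have e0 : (Fin.consEquiv (fun _ : Fin (K + 1) => ℤ)) x = Fin.cons x.1 x.2 := rfl
    simp only [Function.comp_apply, e0]
    rw [Fin.prod_univ_succ]
    simp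

lemma one_add_sum_le_prod {K : ℕ} (j : Fin K → ℤ) :
    (1 : ℝ) + ∑ i, |(j i : ℝ)| ≤ ∏ i, (1 + |(j i : ℝ)|) := by
  have : ∀ s : Finset (Fin K), (1 : ℝ) + ∑ i ∈ s, |(j i : ℝ)| ≤ ∏ i ∈ s, (1 + |(j i : ℝ)|) := by
    intro s
    induction s using Finset.induction_on with
    | empty => simp
    | insert i s hi ih =>
      rw [Finset.sum_insert hi, Finset.prod_insert hi]
      have h1 : (0 : ℝ) ≤ |(j i : ℝ)| := abs_nonneg _
      have h2 : (0 : ℝ) ≤ ∑ i ∈ s, |(j i : ℝ)| := Finset.sum_nonneg fun _ _ => abs_nonneg _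
      nlinarith
  exact this Finset.univ

/-- the product of the positions -/
def fpr {K : ℕ} (j : Fin K → ℤ) (n : ℤ) : ℤ := ∏ i : Fin K, (n + psum j i.val)

/-- outside of a window the product is positive (even number of factors) -/
lemma fpr_abs_eq {k : ℕ} (j : Fin (2 * k) → ℤ) (n : ℤ) (hn : ∑ i, |j i| < |n|) :
    |fpr j n| = fpr j n := by
  have hps : ∀ i : Fin (2 * k), |psum j i.val| < |n| := fun i => (psum_abs_le j _).trans_lt hn
  rw [abs_eq_self]
  unfold fpr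
  rcases lt_or_ge 0 n with h | h
  · refine Finset.prod_nonneg fun i _ => ?_
    have := hps i
    rw [abs_of_pos h, abs_lt] at this
    linarith
  · have h0 : ∏ i : Fin (2 * k), (n + psum j i.val) = ∏ i : Fin (2 * k), (-(n + psum j i.val)) := by
      rw [Finset.prod_neg]
      simp
    rw [h0]
    refine Finset.prod_nonneg fun i _ => ?_
    have := hps i
    rw [abs_of_nonpos h, abs_lt] at this
    linarith

/-- the summand of the zeta invariant -/
noncomputable def tt {K : ℕ} (a : ℤ → ℂ) (p : JJ K × ℤ) : ℂ :=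
  ((|fpr p.1.1 p.2| - fpr p.1.1 p.2 : ℤ) : ℂ) * ∏ i : Fin K, a (p.1.1 i)

lemma wt_sub {K : ℕ} (a : ℤ → ℂ) (p : JJ K × ℤ) :
    wt (fun v => ((|v| : ℤ) : ℂ)) a p.1.1 p.2 - wt (fun v => (v : ℂ)) a p.1.1 p.2 = tt a p := by
  unfold wt tt fpr
  rw [← sub_mul]
  congr 1
  rw [Finset.abs_prod]
  push_cast
  rfl

lemma tt_bound {k : ℕ} (a : ℤ → ℂ) (p : JJ (2 * k) × ℤ) :
    ‖tt a p‖ ≤ 2 ^ (2 * k + 1) * ((∏ i, ((1 + |(p.1.1 i : ℝ)|) ^ (2 * k + 2) * ‖a (p.1.1 i)‖)) *
      (1 / (1 + |(p.2 : ℝ)|) ^ 2)) := by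
  obtain ⟨⟨j, hj⟩, n⟩ := p
  simp only
  have hP := one_add_sum_le_prod j
  set P : ℝ := ∏ i, (1 + |(j i : ℝ)|) with hPdef
  set R : ℝ := ∑ i, |(j i : ℝ)| with hR
  have hR0 : 0 ≤ R := Finset.sum_nonneg fun _ _ => abs_nonneg _
  have hprod : (∏ i, ((1 + |(j i : ℝ)|) ^ (2 * k + 2) * ‖a (j i)‖))
      = P ^ (2 * k + 2) * ∏ i, ‖a (j i)‖ := by
    rw [Finset.prod_mul_distrib, Finset.prod_pow]
  rw [hprod]
  have hA0 : 0 ≤ ∏ i, ‖a (j i)‖ := Finset.prod_nonneg fun _ _ => norm_nonneg _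
  have hP1 : 1 ≤ P := by linarith
  by_cases hn : ∑ i, |j i| < |n|
  · have h := fpr_abs_eq j n hn
    unfold tt
    simp only [h, sub_self, Int.cast_zero, zero_mul, norm_zero]
    positivity
  · rw [not_lt] at hn
    have hnR : |(n : ℝ)| ≤ R := by
      rw [hR]
      exact_mod_cast hn
    have hf : |(fpr j n : ℝ)| ≤ (2 * P) ^ (2 * k) := by
      unfold fpr
      push_cast
      rw [Finset.abs_prod]
      calc ∏ i : Fin (2 * k), |(n : ℝ) + (psum j i.val : ℝ)| ≤ ∏ i : Fin (2 * k), (2 * P) := by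
            refine Finset.prod_le_prod (fun _ _ => abs_nonneg _) fun i _ => ?_
            have h1 : |(psum j i.val : ℝ)| ≤ R := by
              rw [hR]
              exact_mod_cast psum_abs_le j i.val
            calc |(n : ℝ) + (psum j i.val : ℝ)| ≤ |(n : ℝ)| + |(psum j i.val : ℝ)| := abs_add_le _ _
              _ ≤ 2 * P := by linarith
        _ = (2 * P) ^ (2 * k) := by simp
    have hd : ‖((|fpr j n| - fpr j n : ℤ) : ℂ)‖ ≤ 2 * (2 * P) ^ (2 * k) := by
      rw [Complex.norm_intCast]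
      push_cast
      refine (abs_sub _ _).trans ?_
      rw [abs_abs]
      linarith
    have h2 : (1 : ℝ) ≤ P ^ 2 * (1 / (1 + |(n : ℝ)|) ^ 2) := by
      rw [mul_one_div, one_le_div (by positivity)]
      exact pow_le_pow_left₀ (by positivity) (by linarith) 2
    unfold tt
    rw [norm_mul, norm_prod]
    calc ‖((|fpr j n| - fpr j n : ℤ) : ℂ)‖ * ∏ i, ‖a (j i)‖
        ≤ (2 * (2 * P) ^ (2 * k)) * ∏ i, ‖a (j i)‖ := mul_le_mul_of_nonneg_right hd hA0
      _ ≤ ((2 * (2 * P) ^ (2 * k)) * ∏ i, ‖a (j i)‖) * (P ^ 2 * (1 / (1 + |(n : ℝ)|) ^ 2)) := by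
          refine le_mul_of_one_le_right (by positivity) h2
      _ = _ := by ring

lemma tt_bound_summable {a : ℤ → ℂ} (ha : RD a) (k : ℕ) :
    Summable fun p : JJ (2 * k) × ℤ =>
      2 ^ (2 * k + 1) * ((∏ i, ((1 + |(p.1.1 i : ℝ)|) ^ (2 * k + 2) * ‖a (p.1.1 i)‖)) *
      (1 / (1 + |(p.2 : ℝ)|) ^ 2)) := by
  refine Summable.mul_left _ ?_
  have h1 := summable_pi (g := fun n : ℤ => (1 + |(n : ℝ)|) ^ (2 * k + 2) * ‖a n‖)
    (fun n => by positivity) (ha.summable _) (2 * k)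
  have h2 : Summable fun j : JJ (2 * k) =>
      ∏ i, ((1 + |(j.1 i : ℝ)|) ^ (2 * k + 2) * ‖a (j.1 i)‖) :=
    h1.comp_injective (i := fun j : JJ (2 * k) => j.1) Subtype.val_injective
  exact h2.mul_of_nonneg summable_inv_sq (fun j => Finset.prod_nonneg fun i _ => by positivity)
    (fun n => by positivity)

lemma summable_tt {a : ℤ → ℂ} (ha : RD a) (k : ℕ) :
    Summable fun p : JJ (2 * k) × ℤ => tt a p :=
  Summable.of_norm_bounded (tt_bound_summable ha k) (tt_bound a)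

/-- difference of the two traces on the window -/
noncomputable def ZL (a : ℤ → ℂ) (k L : ℕ) : ℂ :=
  ((ML (fun v => ((|v| : ℤ) : ℂ)) a L) ^ (2 * k)).trace - ((ML (fun v => (v : ℂ)) a L) ^ (2 * k)).trace

lemma tendsto_ZL {a : ℤ → ℂ} (ha : RD a) {k : ℕ} (hk : 0 < k) :
    Tendsto (fun L : ℕ => ZL a k L) atTop (𝓝 (∑' p : JJ (2 * k) × ℤ, tt a p)) := by
  classical
  have hK : 0 < 2 * k := by omega
  have h1 : ∀ L : ℕ, ZL a k L = ∑' p : JJ (2 * k) × ℤ,
      if (∀ i : Fin (2 * k), |p.2 + psum p.1.1 i.val| ≤ L) then tt a p else 0 := by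
    intro L
    have hfin : ∀ ω : ℤ → ℂ, Summable fun p : JJ (2 * k) × ℤ =>
        if (∀ i : Fin (2 * k), |p.2 + psum p.1.1 i.val| ≤ (L : ℤ)) then wt ω a p.1.1 p.2 else 0 := by
      intro ω
      refine summable_of_finite_support ((Set.finite_range (toJ (K := 2 * k) (L := L))).subset ?_)
      intro p hp
      rw [Function.mem_support] at hp
      apply range_toJ hK
      by_contra h
      exact hp (if_neg h)
    unfold ZL
    rw [trace_ML_pow _ _ hK, trace_ML_pow _ _ hK, ← (hfin _).tsum_sub (hfin _)]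
    refine tsum_congr fun p => ?_
    by_cases h : ∀ i : Fin (2 * k), |p.2 + psum p.1.1 i.val| ≤ (L : ℤ)
    · rw [if_pos h, if_pos h, if_pos h, wt_sub]
    · rw [if_neg h, if_neg h, if_neg h, sub_zero]
  simp_rw [h1]
  refine tendsto_tsum_of_dominated_convergence (tt_bound_summable ha k) ?_ ?_
  · intro p
    refine tendsto_const_nhds.congr' ?_
    have : ∀ᶠ L : ℕ in atTop, ∀ i : Fin (2 * k), |p.2 + psum p.1.1 i.val| ≤ (L : ℤ) := by
      rw [Filter.eventually_all]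
      intro i
      filter_upwards [Filter.eventually_ge_atTop (|p.2 + psum p.1.1 i.val|).toNat] with L hL
      have := Int.toNat_of_nonneg (abs_nonneg (p.2 + psum p.1.1 i.val))
      omega
    filter_upwards [this] with L hL
    rw [if_pos hL]
  · refine Filter.Eventually.of_forall fun L p => ?_
    split_ifs
    · exact tt_bound a p
    · rw [norm_zero]
      exact (norm_nonneg _).trans (tt_bound a p)

/-! ### the numbers `N_j` -/

lemma fpr_support_finite {k : ℕ} (j : Fin (2 * k) → ℤ) :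
    (Function.support fun n : ℤ => |fpr j n| - fpr j n).Finite := by
  refine (Finset.finite_toSet (Finset.Icc (-∑ i, |j i|) (∑ i, |j i|))).subset ?_
  intro n hn
  rw [Function.mem_support] at hn
  rw [Finset.coe_Icc, Set.mem_Icc, ← abs_le]
  by_contra h
  rw [not_le] at h
  exact hn (by rw [fpr_abs_eq j n h, sub_self])

lemma tsum_tt {a : ℤ → ℂ} (ha : RD a) (k : ℕ) :
    ∑' p : JJ (2 * k) × ℤ, tt a p
      = ∑' j : JJ (2 * k), ((∑ᶠ n : ℤ, (|fpr j.1 n| - fpr j.1 n) : ℤ) : ℂ) * ∏ i, a (j.1 i) := by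
  rw [(summable_tt ha k).tsum_prod]
  refine tsum_congr fun j => ?_
  unfold tt
  simp only
  rw [tsum_mul_right]
  congr 1
  have hf := fpr_support_finite j.1
  have h1 : (∑ᶠ n : ℤ, (|fpr j.1 n| - fpr j.1 n) : ℤ) = ∑ n ∈ hf.toFinset, (|fpr j.1 n| - fpr j.1 n) :=
    finsum_eq_sum _ hf
  rw [h1, Int.cast_sum]
  refine tsum_eq_sum ?_
  intro n hn
  have : |fpr j.1 n| - fpr j.1 n = 0 := by
    by_contra h
    exact hn (by rw [Set.Finite.mem_toFinset, Function.mem_support]; exact h)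
  rw [this, Int.cast_zero]

lemma summable_N {a : ℤ → ℂ} (ha : RD a) (k : ℕ) :
    Summable fun j : JJ (2 * k) =>
      ‖((∑ᶠ n : ℤ, (|fpr j.1 n| - fpr j.1 n) : ℤ) : ℂ) * ∏ i, a (j.1 i)‖ := by
  have h1 := (summable_tt ha k).norm
  have h2 := h1.prod
  refine Summable.of_nonneg_of_le (fun _ => norm_nonneg _) (fun j => ?_) h2
  unfold tt
  simp only
  have hf := fpr_support_finite j.1
  have e1 : (∑ᶠ n : ℤ, (|fpr j.1 n| - fpr j.1 n) : ℤ) = ∑ n ∈ hf.toFinset, (|fpr j.1 n| - fpr j.1 n) :=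
    finsum_eq_sum _ hf
  rw [e1, Int.cast_sum, Finset.sum_mul]
  refine (norm_sum_le _ _).trans ?_
  refine le_of_eq (Eq.symm (tsum_eq_sum ?_))
  intro n hn
  have : |fpr j.1 n| - fpr j.1 n = 0 := by
    by_contra h
    exact hn (by rw [Set.Finite.mem_toFinset, Function.mem_support]; exact h)
  rw [this, Int.cast_zero, zero_mul, norm_zero]

end Pool.Agent.K3h40.Steklov
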