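import Mathlib

/-!
Trace of a power of a truncated matrix `ω(u) a(v-u)` as a sum over closed walks.
-/

namespace Pool.Agent.K3h40.Steklov

open Finset Matrix

section gen
variable {ι : Type*} [Fintype ι] [DecidableEq ι]

lemma pow_apply_eq (M : Matrix ι ι ℂ) (n : ℕ) (u w : ι) :
    (M ^ n) u w = ∑ x : Fin (n + 1) → ι, if x 0 = u ∧ x (Fin.last n) = w then
      ∏ i : Fin n, M (x i.castSucc) (x i.succ) else 0 := by
  induction n generalizing u with
  | zero =>
    rw [pow_zero, Matrix.one_apply]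
    simp only [Finset.univ_eq_empty, Finset.prod_empty]
    rw [← (Equiv.funUnique (Fin 1) ι).symm.sum_comp]
    have : ∀ i : ι, (if (Equiv.funUnique (Fin 1) ι).symm i 0 = u ∧
        (Equiv.funUnique (Fin 1) ι).symm i (Fin.last 0) = w then (1 : ℂ) else 0)
        = if i = u then (if u = w then 1 else 0) else 0 := by
      intro i
      have h1 : (Equiv.funUnique (Fin 1) ι).symm i 0 = i := rfl
      have h2 : (Equiv.funUnique (Fin 1) ι).symm i (Fin.last 0) = i := rfl
      rw [h1, h2]
      by_cases h : i = u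
      · subst h; simp
      · simp [h]
    simp_rw [this]
    simp
  | succ n ih =>
    rw [pow_succ', Matrix.mul_apply]
    simp_rw [ih]
    rw [← (Fin.consEquiv (fun _ : Fin (n + 2) => ι)).sum_comp, Fintype.sum_prod_type]
    have h1 : ∀ (u' : ι) (y : Fin (n + 1) → ι),
        (if (Fin.consEquiv (fun _ : Fin (n + 2) => ι)) (u', y) 0 = u ∧
          (Fin.consEquiv (fun _ : Fin (n + 2) => ι)) (u', y) (Fin.last (n + 1)) = w then
          ∏ i : Fin (n + 1), M ((Fin.consEquiv (fun _ : Fin (n + 2) => ι)) (u', y) i.castSucc)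
            ((Fin.consEquiv (fun _ : Fin (n + 2) => ι)) (u', y) i.succ) else 0)
        = if u' = u then (if y (Fin.last n) = w then
            M u (y 0) * ∏ i : Fin n, M (y i.castSucc) (y i.succ) else 0) else 0 := by
      intro u' y
      have e0 : (Fin.consEquiv (fun _ : Fin (n + 2) => ι)) (u', y) = Fin.cons u' y := rfl
      rw [e0]
      have e1 : (Fin.cons u' y : Fin (n + 2) → ι) 0 = u' := rfl
      have e2 : (Fin.cons u' y : Fin (n + 2) → ι) (Fin.last (n + 1)) = y (Fin.last n) := by
        rw [← Fin.succ_last, Fin.cons_succ]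
      rw [e1, e2, Fin.prod_univ_succ]
      have e3 : (Fin.cons u' y : Fin (n + 2) → ι) (Fin.castSucc 0) = u' := rfl
      have e4 : ∀ i : Fin n, (Fin.cons u' y : Fin (n + 2) → ι) (Fin.castSucc i.succ)
          = y i.castSucc := by
        intro i
        rw [← Fin.succ_castSucc, Fin.cons_succ]
      simp_rw [e4, Fin.cons_succ, e3]
      by_cases h : u' = u
      · subst h
        simp
      · simp [h]
    simp_rw [h1]
    rw [Finset.sum_comm]
    simp_rw [Finset.sum_ite_eq' Finset.univ u, Finset.mem_univ, if_true, Finset.mul_sum]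
    rw [Finset.sum_comm]
    refine Finset.sum_congr rfl fun y _ => ?_
    rw [Finset.sum_eq_single (y 0)]
    · by_cases h : y (Fin.last n) = w
      · simp [h]
      · simp [h]
    · intro v _ hv
      rw [if_neg (fun h => hv h.1.symm), mul_zero]
    · intro h; exact absurd (Finset.mem_univ _) h

lemma trace_pow_eq (M : Matrix ι ι ℂ) (n : ℕ) :
    (M ^ n).trace = ∑ x : Fin (n + 1) → ι, if x 0 = x (Fin.last n) then
      ∏ i : Fin n, M (x i.castSucc) (x i.succ) else 0 := by
  simp only [Matrix.trace, Matrix.diag, pow_apply_eq]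
  rw [Finset.sum_comm]
  refine Finset.sum_congr rfl fun x _ => ?_
  rw [Finset.sum_eq_single (x 0)]
  · by_cases h : x 0 = x (Fin.last n)
    · rw [if_pos ⟨rfl, h.symm⟩, if_pos h]
    · rw [if_neg (fun h' => h h'.2.symm), if_neg h]
  · intro u _ hu
    rw [if_neg (fun h => hu h.1.symm)]
  · intro h; exact absurd (Finset.mem_univ _) h

lemma trace_pow_comm (X Y : Matrix ι ι ℂ) (n : ℕ) :
    ((X * Y) ^ n).trace = ((Y * X) ^ n).trace := by
  cases n with
  | zero => simp
  | succ n =>
    rw [pow_succ, ← mul_assoc, Matrix.trace_mul_comm, pow_succ' (Y * X), mul_assoc Y X]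
    congr 2
    have : ∀ m : ℕ, (X * Y) ^ m * X = X * (Y * X) ^ m := by
      intro m
      induction m with
      | zero => simp
      | succ m ih => rw [pow_succ', mul_assoc, ih, pow_succ' (Y * X)]; simp only [mul_assoc]
    exact this n

end gen

/-- partial sums -/
def psum {K : ℕ} (j : Fin K → ℤ) (t : ℕ) : ℤ := ∑ l : Fin K with l.val < t, j l

lemma psum_zero {K : ℕ} (j : Fin K → ℤ) : psum j 0 = 0 := by
  simp [psum]

lemma psum_succ {K : ℕ} (j : Fin K → ℤ) (i : Fin K) : psum j (i.val + 1) = psum j i.val + j i := by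
  unfold psum
  have : (Finset.univ.filter fun l : Fin K => l.val < i.val + 1)
      = insert i (Finset.univ.filter fun l : Fin K => l.val < i.val) := by
    ext l
    simp only [Finset.mem_filter, Finset.mem_univ, true_and, Finset.mem_insert, Fin.ext_iff]
    omega
  rw [this, Finset.sum_insert (by simp)]
  ring

lemma psum_last {K : ℕ} (j : Fin K → ℤ) : psum j K = ∑ i, j i := by
  unfold psum
  congr 1
  ext l
  simp

lemma psum_abs_le {K : ℕ} (j : Fin K → ℤ) (t : ℕ) : |psum j t| ≤ ∑ i, |j i| := by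
  unfold psum
  refine (Finset.abs_sum_le_sum_abs _ _).trans ?_
  exact Finset.sum_le_sum_of_subset_of_nonneg (Finset.filter_subset _ _) fun _ _ _ => abs_nonneg _

/-- zero-sum tuples -/
abbrev JJ (K : ℕ) : Type := {j : Fin K → ℤ // ∑ i, j i = 0}

/-- weight of a walk -/
noncomputable def wt {K : ℕ} (ω a : ℤ → ℂ) (j : Fin K → ℤ) (n : ℤ) : ℂ :=
  (∏ i : Fin K, ω (n + psum j i.val)) * ∏ i : Fin K, a (j i)

/-- the truncated index set -/
abbrev IL (L : ℕ) : Type := ↥(Finset.Icc (-(L : ℤ)) L)

/-- the truncated matrix `ω(u) a(v-u)` -/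
noncomputable def ML (ω a : ℤ → ℂ) (L : ℕ) : Matrix (IL L) (IL L) ℂ :=
  fun u v => ω u * a (v - u)

/-- closed walks in the window -/
abbrev CW (K L : ℕ) : Type := {x : Fin (K + 1) → IL L // x 0 = x (Fin.last K)}

/-- steps of a walk -/
def steps {K L : ℕ} (x : Fin (K + 1) → IL L) (i : Fin K) : ℤ :=
  (x i.succ : ℤ) - (x i.castSucc : ℤ)

lemma psum_steps {K L : ℕ} (x : Fin (K + 1) → IL L) (t : ℕ) (ht : t < K + 1) :
    psum (steps x) t = (x ⟨t, ht⟩ : ℤ) - (x 0 : ℤ) := by
  induction t with
  | zero => simp [psum_zero]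
  | succ t ih =>
    have ht' : t < K := by omega
    have := psum_succ (steps x) ⟨t, ht'⟩
    simp only at this
    rw [this, ih (by omega)]
    unfold steps
    have e1 : (Fin.succ ⟨t, ht'⟩ : Fin (K + 1)) = ⟨t + 1, ht⟩ := rfl
    have e2 : (Fin.castSucc ⟨t, ht'⟩ : Fin (K + 1)) = ⟨t, by omega⟩ := rfl
    rw [e1, e2]
    ring

/-- the map to (tuple, starting point) -/
def toJ {K L : ℕ} (x : CW K L) : JJ K × ℤ :=
  (⟨steps x.1, by
    rw [← psum_last, psum_steps x.1 K (by omega)]
    have h : x.1 0 = x.1 ⟨K, by omega⟩ := x.2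
    rw [← h]; ring⟩, (x.1 0 : ℤ))

lemma toJ_pos {K L : ℕ} (x : CW K L) (t : ℕ) (ht : t < K + 1) :
    (toJ x).2 + psum (toJ x).1.1 t = (x.1 ⟨t, ht⟩ : ℤ) := by
  have := psum_steps x.1 t ht
  show (x.1 0 : ℤ) + psum (steps x.1) t = _
  rw [this]; ring

lemma toJ_injective (K L : ℕ) : Function.Injective (toJ (K := K) (L := L)) := by
  intro x y h
  apply Subtype.ext
  funext i
  apply Subtype.ext
  have h1 := toJ_pos x i.1 i.2
  have h2 := toJ_pos y i.1 i.2
  rw [h] at h1
  rw [← h1, h2]

lemma range_toJ {K L : ℕ} (hK : 0 < K) (p : JJ K × ℤ)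
    (hp : ∀ i : Fin K, |p.2 + psum p.1.1 i.val| ≤ L) : p ∈ Set.range (toJ (K := K) (L := L)) := by
  have hall : ∀ t : ℕ, t < K + 1 → p.2 + psum p.1.1 t ∈ Finset.Icc (-(L : ℤ)) L := by
    intro t ht
    rw [Finset.mem_Icc, ← abs_le]
    by_cases h : t < K
    · exact hp ⟨t, h⟩
    · have : t = K := by omega
      subst this
      rw [psum_last, p.1.2, add_zero]
      have := hp ⟨0, hK⟩
      simpa [psum_zero] using this
  refine ⟨⟨fun i => ⟨p.2 + psum p.1.1 i.1, hall i.1 i.2⟩, ?_⟩, ?_⟩
  · apply Subtype.ext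
    simp [psum_zero, psum_last, p.1.2]
  · refine Prod.ext (Subtype.ext (funext fun i => ?_)) ?_
    · show (p.2 + psum p.1.1 (i.succ : Fin (K + 1)).val : ℤ) - (p.2 + psum p.1.1 (i.castSucc).val)
        = p.1.1 i
      rw [Fin.val_succ, Fin.val_castSucc, psum_succ]
      ring
    · show p.2 + psum p.1.1 0 = p.2
      rw [psum_zero, add_zero]

open Classical in
/-- trace of the power as a sum over closed walks in the window -/
lemma trace_ML_pow (ω a : ℤ → ℂ) {K : ℕ} (hK : 0 < K) (L : ℕ) :
    ((ML ω a L) ^ K).trace = ∑' p : JJ K × ℤ,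
      if (∀ i : Fin K, |p.2 + psum p.1.1 i.val| ≤ L) then wt ω a p.1.1 p.2 else 0 := by
  rw [← (toJ_injective K L).tsum_eq, tsum_fintype, trace_pow_eq]
  · rw [← Finset.sum_filter]
    have hsub := Finset.sum_subtype (Finset.univ.filter
      fun x : Fin (K + 1) → IL L => x 0 = x (Fin.last K))
      (p := fun x => x 0 = x (Fin.last K)) (F := inferInstanceAs (Fintype (CW K L))) (by simp) (fun x => if
        (∀ i : Fin K, |(x 0 : ℤ) + psum (steps x) i.val| ≤ (L : ℤ)) then
          wt ω a (steps x) (x 0 : ℤ) else 0)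
    refine Eq.trans ?_ (hsub.trans ?_)
    · refine Finset.sum_congr rfl fun x _ => ?_
      have hpos : ∀ i : Fin K, (x 0 : ℤ) + psum (steps x) i.val = (x i.castSucc : ℤ) := by
        intro i
        rw [psum_steps x i.val (by omega)]
        have : (⟨i.val, by omega⟩ : Fin (K + 1)) = i.castSucc := rfl
        rw [this]; ring
      rw [if_pos]
      · unfold wt
        simp_rw [hpos]
        rw [← Finset.prod_mul_distrib]
        refine Finset.prod_congr rfl fun i _ => ?_
        rfl
      · intro i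
        rw [hpos i, abs_le]
        exact Finset.mem_Icc.1 (x i.castSucc).2
    · refine Finset.sum_congr rfl fun x _ => ?_
      rfl
  · intro p hp
    rw [Function.mem_support] at hp
    apply range_toJ hK
    by_contra h
    exact hp (if_neg h)

end Pool.Agent.K3h40.Steklov
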