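import Mathlib

/-!
Words in a Hermitian matrix `A` and a Hermitian involution `S`:
`W l = ∏_{b ∈ l} A S^b`.  Every word of length `2k` has `‖tr W l‖ ≤ tr A^{2k}`.
-/

namespace Pool.Agent.K3h40.Steklov

open Matrix Finset

variable {ι : Type*} [Fintype ι] [DecidableEq ι]

/-- squared Hilbert-Schmidt norm -/
noncomputable def hs (U : Matrix ι ι ℂ) : ℝ := ∑ i, ∑ j, ‖U i j‖ ^ 2

lemma hs_nonneg (U : Matrix ι ι ℂ) : 0 ≤ hs U :=
  Finset.sum_nonneg fun _ _ => Finset.sum_nonneg fun _ _ => by positivity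

lemma trace_mul_conjTranspose (U : Matrix ι ι ℂ) : (U * Uᴴ).trace = (hs U : ℂ) := by
  simp only [Matrix.trace, Matrix.diag, Matrix.mul_apply, Matrix.conjTranspose_apply, hs]
  push_cast
  refine Finset.sum_congr rfl fun i _ => Finset.sum_congr rfl fun j _ => ?_
  rw [Complex.star_def, Complex.mul_conj, Complex.normSq_eq_norm_sq]
  push_cast
  rfl

lemma hs_conjTranspose (U : Matrix ι ι ℂ) : hs Uᴴ = hs U := by
  simp only [hs, Matrix.conjTranspose_apply, norm_star]
  rw [Finset.sum_comm]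

lemma norm_trace_mul_le (U V : Matrix ι ι ℂ) :
    ‖(U * V).trace‖ ≤ (hs U + hs V) / 2 := by
  have h1 : ‖(U * V).trace‖ ≤ ∑ i, ∑ j, ‖U i j‖ * ‖V j i‖ := by
    simp only [Matrix.trace, Matrix.diag, Matrix.mul_apply]
    refine (norm_sum_le _ _).trans (Finset.sum_le_sum fun i _ => ?_)
    refine (norm_sum_le _ _).trans (Finset.sum_le_sum fun j _ => ?_)
    rw [norm_mul]
  have h2 : ∑ i, ∑ j, ‖U i j‖ * ‖V j i‖ ≤ ∑ i, ∑ j, (‖U i j‖ ^ 2 + ‖V j i‖ ^ 2) / 2 := by
    refine Finset.sum_le_sum fun i _ => Finset.sum_le_sum fun j _ => ?_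
    nlinarith [sq_nonneg (‖U i j‖ - ‖V j i‖)]
  have h3 : ∑ i, ∑ j, (‖U i j‖ ^ 2 + ‖V j i‖ ^ 2) / 2 = (hs U + hs V) / 2 := by
    simp only [hs]
    rw [Finset.sum_comm (f := fun i j => ‖V i j‖ ^ 2)]
    simp only [← Finset.sum_div, Finset.sum_add_distrib]
  linarith

/-- the letter `A S^b` -/
noncomputable def ltr (A S : Matrix ι ι ℂ) (b : Bool) : Matrix ι ι ℂ := if b then A * S else A

/-- the word -/
noncomputable def wrd (A S : Matrix ι ι ℂ) (l : List Bool) : Matrix ι ι ℂ :=
  (l.map (ltr A S)).prod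

@[simp] lemma wrd_nil (A S : Matrix ι ι ℂ) : wrd A S [] = 1 := rfl

@[simp] lemma wrd_cons (A S : Matrix ι ι ℂ) (b : Bool) (l : List Bool) :
    wrd A S (b :: l) = ltr A S b * wrd A S l := by simp [wrd]

@[simp] lemma wrd_append (A S : Matrix ι ι ℂ) (l l' : List Bool) :
    wrd A S (l ++ l') = wrd A S l * wrd A S l' := by simp [wrd]

lemma trace_wrd_rotate (A S : Matrix ι ι ℂ) (l l' : List Bool) :
    (wrd A S (l ++ l')).trace = (wrd A S (l' ++ l)).trace := by
  rw [wrd_append, wrd_append, Matrix.trace_mul_comm]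

variable {A S : Matrix ι ι ℂ}

lemma mul_wrd_conjTranspose (hA : Aᴴ = A) (hS : Sᴴ = S) (u : List Bool) :
    A * (wrd A S u)ᴴ = wrd A S u.reverse * A := by
  induction u with
  | nil => simp
  | cons b t ih =>
    rw [wrd_cons, Matrix.conjTranspose_mul, ← mul_assoc, ih, List.reverse_cons, wrd_append]
    cases b
    · simp [ltr, hA, mul_assoc]
    · simp [ltr, hA, hS, mul_assoc, Matrix.conjTranspose_mul]

lemma hs_wrd_snoc (hA : Aᴴ = A) (hS : Sᴴ = S) (hSS : S * S = 1) (u : List Bool) (b : Bool) :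
    (wrd A S (u ++ ([false] ++ (u.reverse ++ [false])))).trace = (hs (wrd A S (u ++ [b])) : ℂ) := by
  rw [← trace_mul_conjTranspose]
  congr 1
  have h1 : (wrd A S (u ++ [b])) * (wrd A S (u ++ [b]))ᴴ
      = wrd A S u * (ltr A S b * (ltr A S b)ᴴ) * (wrd A S u)ᴴ := by
    rw [wrd_append, Matrix.conjTranspose_mul]
    simp [mul_assoc]
  have h2 : ltr A S b * (ltr A S b)ᴴ = A * A := by
    cases b
    · simp [ltr, hA]
    · simp only [ltr, if_true, Matrix.conjTranspose_mul, hA, hS]
      rw [mul_assoc, ← mul_assoc S, hSS, one_mul]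
  rw [h1, h2, ← mul_assoc, mul_assoc _ A, mul_wrd_conjTranspose hA hS]
  simp [ltr, mul_assoc]

/-- the number of `true` letters -/
def cnt (l : List Bool) : ℕ := l.count true

lemma wrd_of_cnt_eq_zero (l : List Bool) (h : cnt l = 0) : wrd A S l = A ^ l.length := by
  induction l with
  | nil => simp
  | cons b t ih =>
    cases b
    · have : cnt t = 0 := by simpa [cnt] using h
      rw [wrd_cons, ih this]
      simp [ltr, pow_succ']
    · simp [cnt] at h

/-- a word of even positive length which maximises the norm of the trace and contains `true`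
can be replaced by a maximiser with fewer `true`s -/
lemma exists_fewer (hA : Aᴴ = A) (hS : Sᴴ = S) (hSS : S * S = 1) {k : ℕ}
    (M : ℝ) (hM : ∀ l : List Bool, l.length = 2 * k → ‖(wrd A S l).trace‖ ≤ M)
    (l : List Bool) (hl : l.length = 2 * k) (hlM : ‖(wrd A S l).trace‖ = M)
    (hc : 0 < cnt l) :
    ∃ l' : List Bool, l'.length = 2 * k ∧ ‖(wrd A S l').trace‖ = M ∧ cnt l' < cnt l := by
  have hmem : true ∈ l := List.count_pos_iff.mp hc
  obtain ⟨p, q, rfl⟩ := List.append_of_mem hmem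
  have hlen : p.length + (q.length + 1) = 2 * k := by simpa using hl
  have hk : 1 ≤ k := by omega
  set m := q ++ p with hm
  have hmlen : m.length = 2 * k - 1 := by simp [hm]; omega
  set m1 := m.take k with hm1
  set m2 := m.drop k with hm2
  have hm12 : m1 ++ m2 = m := List.take_append_drop k m
  have hm1len : m1.length = k := by simp [hm1, hmlen]; omega
  have hm2len : m2.length = k - 1 := by simp [hm2, hmlen]; omega
  have hT1 : (wrd A S (p ++ true :: q)).trace = (wrd A S ((m2 ++ [true]) ++ m1)).trace := by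
    have e1 : (wrd A S (p ++ true :: q)).trace = (wrd A S ((true :: q) ++ p)).trace :=
      trace_wrd_rotate A S p (true :: q)
    have e2 : (true :: q) ++ p = ([true] ++ m1) ++ m2 := by
      rw [List.append_assoc, hm12, hm]; simp
    rw [e1, e2, trace_wrd_rotate, List.append_assoc]
  have hcnt : cnt (p ++ true :: q) = 1 + cnt m1 + cnt m2 := by
    have : cnt m = cnt m1 + cnt m2 := by rw [← hm12]; simp [cnt]
    have h2 : cnt m = cnt q + cnt p := by rw [hm]; simp [cnt]
    have h3 : cnt (p ++ true :: q) = cnt p + (cnt q + 1) := by simp [cnt]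
    omega
  obtain ⟨m1', b, hb⟩ : ∃ m1' b, m1 = m1' ++ [b] := by
    rcases List.eq_nil_or_concat m1 with h | ⟨L, b, h⟩
    · rw [h] at hm1len; simp at hm1len; omega
    · exact ⟨L, b, by simpa using h⟩
  have hm1'len : m1'.length = k - 1 := by
    rw [hb] at hm1len; simp at hm1len; omega
  set x := m2 ++ ([false] ++ (m2.reverse ++ [false])) with hx
  set y := m1' ++ ([false] ++ (m1'.reverse ++ [false])) with hy
  have hxlen : x.length = 2 * k := by simp [hx, hm2len]; omega
  have hylen : y.length = 2 * k := by simp [hy, hm1'len]; omega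
  have hxT := hs_wrd_snoc (A := A) (S := S) hA hS hSS m2 true
  have hyT := hs_wrd_snoc (A := A) (S := S) hA hS hSS m1' b
  have hxn : ‖(wrd A S x).trace‖ = hs (wrd A S (m2 ++ [true])) := by
    rw [hx, hxT, Complex.norm_real, Real.norm_of_nonneg (hs_nonneg _)]
  have hyn : ‖(wrd A S y).trace‖ = hs (wrd A S m1) := by
    rw [hy, hyT, Complex.norm_real, Real.norm_of_nonneg (hs_nonneg _), hb]
  have hle := norm_trace_mul_le (wrd A S (m2 ++ [true])) (wrd A S m1)
  rw [← wrd_append, ← hT1, hlM, ← hxn, ← hyn] at hle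
  have hxM := hM x hxlen
  have hyM := hM y hylen
  have hcx : cnt x = 2 * cnt m2 := by simp [hx, cnt]; ring
  have hcy : cnt y = 2 * cnt m1' := by simp [hy, cnt]; ring
  have hcm1 : cnt m1' ≤ cnt m1 := by rw [hb]; simp [cnt]
  by_cases hcase : cnt m2 ≤ cnt m1
  · exact ⟨x, hxlen, by linarith, by omega⟩
  · exact ⟨y, hylen, by linarith, by omega⟩

/-- every word of length `2k` is bounded by the trace of `A^{2k}` -/
theorem norm_trace_wrd_le (hA : Aᴴ = A) (hS : Sᴴ = S) (hSS : S * S = 1) {k : ℕ}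
    (l : List Bool) (hl : l.length = 2 * k) :
    ‖(wrd A S l).trace‖ ≤ ‖(A ^ (2 * k)).trace‖ := by
  classical
  -- the maximum exists
  have hfin : ∃ l₀ : List Bool, l₀.length = 2 * k ∧
      ∀ l : List Bool, l.length = 2 * k → ‖(wrd A S l).trace‖ ≤ ‖(wrd A S l₀).trace‖ := by
    obtain ⟨v, hv⟩ := Finite.exists_max
      (fun v : List.Vector Bool (2 * k) => ‖(wrd A S v.toList).trace‖)
    refine ⟨v.toList, v.toList_length, fun l hl => ?_⟩
    have := hv ⟨l, hl⟩
    simpa using this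
  obtain ⟨l₀, hl₀, hmax⟩ := hfin
  have key : ∀ c : ℕ, ∀ l : List Bool, l.length = 2 * k →
      ‖(wrd A S l).trace‖ = ‖(wrd A S l₀).trace‖ → cnt l = c →
      ‖(wrd A S l₀).trace‖ = ‖(A ^ (2 * k)).trace‖ := by
    intro c
    induction c using Nat.strong_induction_on with
    | _ c ih =>
      intro l hl hlM hc
      rcases Nat.eq_zero_or_pos (cnt l) with h0 | h0
      · rw [← hlM, wrd_of_cnt_eq_zero l h0, hl]
      · obtain ⟨l', hl', hl'M, hlt⟩ := exists_fewer hA hS hSS _ hmax l hl hlM h0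
        exact ih (cnt l') (by omega) l' hl' hl'M rfl
  rw [← key _ l₀ hl₀ rfl rfl]
  exact hmax l hl

lemma trace_pow_two_mul (hA : Aᴴ = A) (k : ℕ) : (A ^ (2 * k)).trace = (hs (A ^ k) : ℂ) := by
  rw [← trace_mul_conjTranspose, Matrix.conjTranspose_pow, hA, ← pow_add, two_mul]

end Pool.Agent.K3h40.Steklov
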